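import Pool.Agent.MP_bf5815_lc.ModelB

/-! Machines that rewrite the whole tape in one big step; simulated by model B, one big step
taking `ω * 3` steps. -/

namespace Pool.Agent.MP_bf5815_lc

open Ordinal Order
open scoped Classical

theorem Sys.omega_phase' {X ι : Type} {S : Sys X ι} (I P : ℕ → X → Prop) (P0 : X → Prop)
    (hI : ∀ n x, I n x → ∃ y, S.Steps (P n) x y ∧ I (n + 1) y) (hP : ∀ n z, P n z → P0 z)
    {x : X} (hx : P0 x) (h0 : I 0 (S.step x)) :
    (∀ s, s < ω → P0 (S.run x s)) ∧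
      ∀ i b N, (∀ n, N ≤ n → ∀ z, P n z → S.cell z i = b) → S.cell (S.run x ω) i = b := by
  obtain ⟨h1, h2⟩ := Sys.omega_phase I P hI h0
  constructor
  · intro s hs
    rcases eq_or_ne s 0 with rfl | h
    · simpa using hx
    · obtain ⟨d, rfl⟩ := exists_add_of_le (one_le_iff_ne_zero.2 h)
      rw [S.run_add, S.run_one]
      obtain ⟨n, hn⟩ := h1 d (lt_of_le_of_lt le_add_self hs)
      exact hP n _ hn
  · rw [← one_add_omega0, S.run_add, S.run_one]
    exact h2

def pr : ℕ → ℕ × ℕ
  | 0 => (0, 0)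
  | j + 1 => if (pr j).2 = 0 then (0, (pr j).1 + 1) else ((pr j).1 + 1, (pr j).2 - 1)

theorem pr_add (k : ℕ) : ∀ j z w, pr j = (z, w + k) → pr (j + k) = (z + k, w) := by
  induction k with
  | zero => intro j z w h; exact h
  | succ k ih =>
    intro j z w h
    have := ih j z (w + 1) (by rw [h]; congr 1; omega)
    rw [← add_assoc, pr, this]
    simp [add_assoc]

theorem pr_surj (z w : ℕ) : ∃ j, pr j = (z, w) := by
  have h1 : ∀ s, ∃ j, pr j = (0, s) := by
    intro s
    induction s with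
    | zero => exact ⟨0, rfl⟩
    | succ s ih =>
      obtain ⟨j, hj⟩ := ih
      have := pr_add s j 0 0 (by simpa using hj)
      exact ⟨j + s + 1, by rw [pr, this]; simp⟩
  obtain ⟨j, hj⟩ := h1 (w + z)
  exact ⟨j + z, by simpa using pr_add z j 0 w hj⟩

def res (M n : ℕ) : Fin (M + 1) := ⟨n % (M + 1), Nat.mod_lt _ (Nat.succ_pos M)⟩

theorem res_succ (M n : ℕ) : res M (n + 1) = res M n + 1 := by
  apply Fin.ext
  simp [res, Fin.val_add]

theorem div_succ_last {M n : ℕ} (h : res M n = Fin.last M) :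
    (n + 1) / (M + 1) = n / (M + 1) + 1 := by
  have h1 : n % (M + 1) = M := congrArg Fin.val h
  rw [Nat.succ_div, if_pos]
  have := Nat.div_add_mod n (M + 1)
  exact ⟨n / (M + 1) + 1, by rw [mul_add, mul_one]; omega⟩

theorem div_succ_nlast {M n : ℕ} (h : res M n ≠ Fin.last M) :
    (n + 1) / (M + 1) = n / (M + 1) := by
  rw [Nat.succ_div, if_neg, add_zero]
  intro hd
  apply h
  apply Fin.ext
  simp only [res, Fin.val_last]
  obtain ⟨c, hc⟩ := hd
  cases c with
  | zero => omega
  | succ c =>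
    have : n = M + (M + 1) * c := by rw [mul_add, mul_one] at hc; omega
    rw [this, Nat.add_mul_mod_self_left, Nat.mod_eq_of_lt (by omega)]

structure Loc (T : Type) (M : ℕ) where
  r : Fin (M + 1)
  c0 : T → Bool
  prev : T → Bool
  p0 : Bool
  cur : T → Bool
  u0 : Bool
  next : T → Bool
  cz : T → Bool
  z0 : Bool
  cw : T → Bool

set_option synthInstance.maxSize 100000 in
instance {T : Type} [Finite T] (M : ℕ) : Finite (Loc T M) :=
  Finite.of_equiv _ (proxy_equiv% (Loc T M))

structure MProg (T G : Type) (M : ℕ) where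
  ini : Bool → Bool → T → Bool
  contrib : (T → Bool) → G → Bool
  upd : (G → Bool) → Loc T M → T → Bool
  stop : (T → Bool) → Prop
  out : (T → Bool) → Bool
  jump : (T → Bool) → T → Bool

def loc {T : Type} (M : ℕ) (m : ℕ → T → Bool) (n : ℕ) : Loc T M :=
  ⟨res M n, m 0, m (n - 1), decide (n - 1 = 0), m n, decide (n = 0), m (n + 1),
    m (pr (n / (M + 1))).1, decide ((pr (n / (M + 1))).1 = 0), m (pr (n / (M + 1))).2⟩

variable {T G : Type} {M : ℕ} (D : MProg T G M)

noncomputable def MProg.acc (m : ℕ → T → Bool) (g : G) : Bool :=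
  decide (∃ n, D.contrib (m n) g = true)

noncomputable def mSys : Sys (ℕ → T → Bool) (T × ℕ) where
  cell m i := m i.2 i.1
  step m n := D.upd (D.acc m) (loc M m n)
  lim v n t := v (t, n)
  cell_lim _ := rfl
  halt m := D.stop (m 0)
  out m := D.out (m 0)
  ovr m n := if n = 0 then D.jump (m 0) else m n

inductive BT (K : ℕ) (T G : Type)
  | inp (j : Fin (K + 1))
  | outc
  | old (t : T)
  | new (t : T)
  | tmp (g : G)
  | psi
  | d1

inductive HH | main | nx | ha | hb
  deriving Fintype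

inductive BS (K : ℕ) (T G : Type) (M : ℕ)
  | i1 (j : Fin (K + 1))
  | i2 (j : Fin (K + 1)) (b : Bool)
  | lim
  | spec
  | halt
  | a1 (acc : G → Bool)
  | a2 (acc : G → Bool)
  | b1 (acc : G → Bool) (l : Loc T M) (par : Bool)
  | b2 (acc : G → Bool) (l : Loc T M) (par : Bool)
  | b3 (acc : G → Bool) (l : Loc T M) (par wz : Bool)
  | b4 (acc : G → Bool) (l : Loc T M) (par wz : Bool)
  | cp

set_option synthInstance.maxSize 2048 in
instance {K : ℕ} [Finite T] [Finite G] : Finite (BS K T G M) :=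
  Finite.of_equiv _ (proxy_equiv% (BS K T G M))

variable {K : ℕ}

def BT.wr (c : BT K T G → Bool) (o nw : T → Bool) (tm : G → Bool) (ps d out : Bool) :
    BT K T G → Bool
  | .inp j => c (.inp j)
  | .outc => out
  | .old t => o t
  | .new t => nw t
  | .tmp g => tm g
  | .psi => ps
  | .d1 => d

def bSel : BS K T G M → HH
  | .i1 _ => .nx
  | .i2 _ _ => .main
  | .lim => .nx
  | .spec => .nx
  | .halt => .nx
  | .a1 _ => .main
  | .a2 _ => .ha
  | .b1 _ _ _ => .nx
  | .b2 _ _ par => if par then .ha else .hb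
  | .b3 _ _ par _ => if par then .hb else .ha
  | .b4 _ _ _ _ => .main
  | .cp => .main

noncomputable def bTrans : BS K T G M → (BT K T G → Bool) → Bool →
    BS K T G M × (BT K T G → Bool) × Mv
  | .i1 j, c, _ => (.i2 j (c (.inp j)), c, if j = Fin.last K then .R else .S)
  | .i2 j b, c, z => (.i1 (j + 1),
      BT.wr c (D.ini z b) (c ∘ .new) (c ∘ .tmp) true (c .d1) (c .outc), .R)
  | .lim, c, _ =>
    if c .psi = true then
      if D.stop (c ∘ .old) then
        (.halt, BT.wr c (c ∘ .old) (c ∘ .new) (c ∘ .tmp) (c .psi) (c .d1) (D.out (c ∘ .old)), .S)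
      else (.a1 (fun _ => false),
        BT.wr c (c ∘ .old) (c ∘ .new) (c ∘ .tmp) false false (c .outc), .S)
    else if c .d1 = true then (.cp, c, .S)
    else (.b1 (c ∘ .tmp) ⟨0, c ∘ .old, c ∘ .old, true, c ∘ .old, true, c ∘ .old, c ∘ .old, true,
        c ∘ .old⟩ false,
      BT.wr c (c ∘ .old) (c ∘ .new) (c ∘ .tmp) (c .psi) true (c .outc), .R)
  | .spec, c, _ => (.lim,
      BT.wr c (D.jump (c ∘ .old)) (c ∘ .new) (c ∘ .tmp) (c .psi) (c .d1) (c .outc), .S)
  | .halt, c, _ => (.halt, c, .S)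
  | .a1 acc, c, _ => (.a2 (fun g => acc g || D.contrib (c ∘ .old) g), c, .R)
  | .a2 acc, c, _ => (.a1 acc,
      BT.wr c (c ∘ .old) (c ∘ .new) acc (c .psi) (c .d1) (c .outc), .S)
  | .b1 acc l par, c, _ => (.b2 acc { l with next := c ∘ .old } par, c, .R)
  | .b2 acc l par, c, z => (.b3 acc { l with cw := c ∘ .old } par z, c,
      if l.r = Fin.last M ∧ z = false then .L else .S)
  | .b3 acc l par wz, c, z => (.b4 acc { l with cz := c ∘ .old, z0 := z } par wz, c,
      if l.r = Fin.last M then .R else .S)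
  | .b4 acc l par wz, c, z => (.b1 acc { l with r := l.r + 1, prev := c ∘ .old, p0 := z }
      (if l.r = Fin.last M ∧ wz = true then !par else par),
      BT.wr c (c ∘ .old) (D.upd acc { l with cur := c ∘ .old, u0 := z }) (c ∘ .tmp) (c .psi)
        (c .d1) (c .outc), .R)
  | .cp, c, _ => (.cp,
      BT.wr c (c ∘ .new) (c ∘ .new) (c ∘ .tmp) true (c .d1) (c .outc), .R)

noncomputable def bOf (K : ℕ) : BProg (BS K T G M) HH (BT K T G) where
  start := .i1 0
  lim := .lim
  spec := .spec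
  distinct := by simp
  halt s := s = .halt
  outc := .outc
  sel := bSel
  trans := bTrans D

abbrev BC (K : ℕ) (T G : Type) (M : ℕ) := BCfg (BS K T G M) HH (BT K T G)

def Old (z : BC K T G M) (m : ℕ → T → Bool) : Prop := ∀ n t, z.col n (.old t) = m n t

theorem phase0 (x : BC K T G M) (m : ℕ → T → Bool) (hs : x.state = .lim) (hh : ∀ h, x.head h = 0)
    (hp : x.col 0 .psi = true) (ho : Old x m) (hstop : ¬ D.stop (m 0)) :
    (∀ s : O, s < ω → ((bSys (bOf D K)).run x s).state ≠ .halt ∧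
      Old ((bSys (bOf D K)).run x s) m) ∧
    Old ((bSys (bOf D K)).run x ω) m ∧ ((bSys (bOf D K)).run x ω).col 0 .psi = false ∧
      ((bSys (bOf D K)).run x ω).col 0 .d1 = false ∧
      ∀ g, ((bSys (bOf D K)).run x ω).col 0 (.tmp g) = D.acc m g := by
  obtain ⟨s, hd, C⟩ := x
  simp only at hs hh hp
  subst hs
  let P : ℕ → BC K T G M → Prop := fun n z => z.state ≠ .halt ∧ Old z m ∧ z.col 0 .psi = false ∧
    z.col 0 .d1 = false ∧
    (0 < n → ∀ g, z.col 0 (.tmp g) = decide (∃ k, k < n ∧ D.contrib (m k) g = true))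
  let I : ℕ → BC K T G M → Prop := fun n z =>
    z.state = .a1 (fun g => decide (∃ k, k < n ∧ D.contrib (m k) g = true)) ∧
      z.head .main = n ∧ z.head .ha = 0 ∧ P n z
  have e0 : C 0 ∘ BT.old = m 0 := funext (ho 0)
  obtain ⟨h1, h2⟩ := Sys.omega_phase' (S := bSys (bOf D K)) I P
    (fun z => z.state ≠ .halt ∧ Old z m) (by
      rintro n ⟨s, hd, C⟩ ⟨a1, a2, a3, a4, a5, a6, a7, a8⟩
      simp only at a1 a2 a3 a4 a5 a6 a7 a8
      subst a1
      have e1 : C n ∘ BT.old = m n := funext (a5 n)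
      have e2 : (fun g => decide (∃ k, k < n ∧ D.contrib (m k) g = true) || D.contrib (m n) g) =
          (fun g => decide (∃ k, k < n + 1 ∧ D.contrib (m k) g = true)) := by
        funext g
        rw [Bool.eq_iff_iff]
        simp only [Bool.or_eq_true, decide_eq_true_eq]
        constructor
        · rintro (⟨k, h1, h2⟩ | h)
          · exact ⟨k, by omega, h2⟩
          · exact ⟨n, by omega, h⟩
        · rintro ⟨k, h1, h2⟩
          rcases Nat.lt_succ_iff_lt_or_eq.1 h1 with h | rfl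
          · exact Or.inl ⟨k, h, h2⟩
          · exact Or.inr h2
      refine ⟨_, Sys.Steps.cons ⟨a4, a5, a6, a7, a8⟩ (y := ⟨.a2 (fun g => decide (∃ k, k < n + 1 ∧
        D.contrib (m k) g = true)), fun h => if h = .main then n + 1 else hd h, C⟩) ?_
        (Sys.Steps.one ⟨by simp, a5, a6, a7, a8⟩ rfl), ?_⟩
      · simp only [bSys, bOf, bSel, bTrans, a2, e1, e2, same_col, Mv.app]
      · simp only [I, P, Old, bSys, bOf, bSel, bTrans, Mv.app]
        simp only [reduceCtorEq, if_false, if_true, a3, ne_eq, not_false_iff, true_and]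
        refine ⟨fun k t => ?_, a6, a7, fun _ g => rfl⟩
        split_ifs with h
        · subst h; exact a5 0 t
        · exact a5 k t)
    (fun n z hz => ⟨hz.1, hz.2.1⟩) (x := ⟨.lim, hd, C⟩) ⟨by simp, ho⟩ (by
      simp only [I, P, Old, bSys, bOf, bSel, bTrans, hh, hp, e0, hstop, Mv.app, if_true, if_false]
      refine ⟨by simp, by simp, by simp, by simp, fun k t => ?_, rfl, rfl, by simp⟩
      split_ifs with h
      · subst h; rfl
      · exact ho k t)
  refine ⟨h1, fun n t => h2 (.old t, n) _ 0 (fun _ _ z hz => hz.2.1 n t),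
    h2 (.psi, 0) _ 0 (fun _ _ z hz => hz.2.2.1), h2 (.d1, 0) _ 0 (fun _ _ z hz => hz.2.2.2.1),
    fun g => ?_⟩
  by_cases hg : ∃ k, D.contrib (m k) g = true
  · obtain ⟨k, hk⟩ := hg
    apply h2 (.tmp g, 0) _ (k + 1)
    intro n hn z hz
    refine (hz.2.2.2.2 (by omega) g).trans ?_
    rw [MProg.acc, decide_eq_true ⟨k, by omega, hk⟩, decide_eq_true ⟨k, hk⟩]
  · apply h2 (.tmp g, 0) _ 1
    intro n hn z hz
    refine (hz.2.2.2.2 (by omega) g).trans ?_
    rw [MProg.acc, decide_eq_false hg, decide_eq_false (fun ⟨k, _, hk⟩ => hg ⟨k, hk⟩)]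

end Pool.Agent.MP_bf5815_lc
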