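import Pool.Agent.MP_bf5815_lc.Big

namespace Pool.Agent.MP_bf5815_lc

open Ordinal Order
open scoped Classical

variable {T G : Type} {M : ℕ} (D : MProg T G M) {K : ℕ}

theorem phase1 (x : BC K T G M) (m : ℕ → T → Bool) (hs : x.state = .lim) (hh : ∀ h, x.head h = 0)
    (hp : x.col 0 .psi = false) (hd1 : x.col 0 .d1 = false) (ho : Old x m)
    (ht : ∀ g, x.col 0 (.tmp g) = D.acc m g) :
    (∀ s : O, s < ω → ((bSys (bOf D K)).run x s).state ≠ .halt ∧
      Old ((bSys (bOf D K)).run x s) m) ∧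
    Old ((bSys (bOf D K)).run x ω) m ∧ ((bSys (bOf D K)).run x ω).col 0 .psi = false ∧
      ((bSys (bOf D K)).run x ω).col 0 .d1 = true ∧
      ∀ n t, ((bSys (bOf D K)).run x ω).col n (.new t) = (mSys D).step m n t := by
  obtain ⟨s, hd, C⟩ := x
  simp only at hs hh hp hd1 ht
  subst hs
  let P : ℕ → BC K T G M → Prop := fun n z => z.state ≠ .halt ∧ Old z m ∧ z.col 0 .psi = false ∧
    z.col 0 .d1 = true ∧ ∀ k, k < n → ∀ t, z.col k (.new t) = (mSys D).step m k t
  let I : ℕ → BC K T G M → Prop := fun n z => ∃ l par,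
    z.state = .b1 (D.acc m) l par ∧ l.r = res M n ∧ l.c0 = m 0 ∧ l.prev = m (n - 1) ∧
      l.p0 = decide (n - 1 = 0) ∧ z.head .main = n ∧ z.head .nx = n + 1 ∧
      z.head (if par then .ha else .hb) = (pr (n / (M + 1))).2 ∧
      z.head (if par then .hb else .ha) = (pr (n / (M + 1))).1 ∧ P n z
  have e0 : C 0 ∘ BT.old = m 0 := funext (ho 0)
  have e00 : C 0 ∘ BT.tmp = D.acc m := funext ht
  obtain ⟨h1, h2⟩ := Sys.omega_phase' (S := bSys (bOf D K)) I P
    (fun z => z.state ≠ .halt ∧ Old z m) (by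
      rintro n ⟨s, hd, C⟩ ⟨l, par, a1, b1, b2, b3, b4, a2, a3, a9, a10, a4, a5, a6, a7, a8⟩
      simp only at a1 a2 a3 a4 a5 a6 a7 a8 a9 a10
      subst a1
      have e1 : ∀ k, C k ∘ BT.old = m k := fun k => funext (a5 k)
      set z := (pr (n / (M + 1))).1 with hz
      set w := (pr (n / (M + 1))).2 with hw
      let hd1 : HH → ℕ := fun h => if h = .nx then n + 2 else hd h
      let hd2 : HH → ℕ := fun h => if h = (if par then .ha else .hb) then
        (if l.r = Fin.last M ∧ decide (w = 0) = false then Mv.L else Mv.S).app w else hd1 h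
      let hd3 : HH → ℕ := fun h => if h = (if par then .hb else .ha) then
        (if l.r = Fin.last M then Mv.R else Mv.S).app z else hd2 h
      have s1 : (bSys (bOf D K)).step ⟨.b1 (D.acc m) l par, hd, C⟩ =
          ⟨.b2 (D.acc m) { l with next := m (n + 1) } par, hd1, C⟩ := by
        simp only [bSys, bOf, bSel, bTrans, a3, e1, same_col, Mv.app, hd1]
      have s2 : (bSys (bOf D K)).step ⟨.b2 (D.acc m) { l with next := m (n + 1) } par, hd1, C⟩ =
          ⟨.b3 (D.acc m) { l with next := m (n + 1), cw := m w } par (decide (w = 0)), hd2, C⟩ := by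
        have : hd1 (if par then .ha else .hb) = w := by
          rw [← a9]; cases par <;> simp [hd1]
        simp only [bSys, bOf, bSel, bTrans, this, e1, hd2]
        congr 1
        exact same_col _ _
      have s3 : (bSys (bOf D K)).step ⟨.b3 (D.acc m) { l with next := m (n + 1), cw := m w } par
          (decide (w = 0)), hd2, C⟩ =
          ⟨.b4 (D.acc m) { l with next := m (n + 1), cw := m w, cz := m z, z0 := decide (z = 0) }
            par (decide (w = 0)), hd3, C⟩ := by
        have : hd2 (if par then .hb else .ha) = z := by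
          rw [← a10]; cases par <;> simp [hd1, hd2]
        simp only [bSys, bOf, bSel, bTrans, this, e1, hd3]
        congr 1
        exact same_col _ _
      have e2 : hd3 .main = n := by
        rw [← a2]; cases par <;> simp [hd1, hd2, hd3]
      have e3 : (⟨l.r, l.c0, l.prev, l.p0, m n, decide (n = 0), m (n + 1), m z, decide (z = 0),
          m w⟩ : Loc T M) = loc M m n := by
        rw [b1, b2, b3, b4]; rfl
      refine ⟨_, Sys.Steps.cons ⟨a4, a5, a6, a7, a8⟩ s1 (Sys.Steps.cons ⟨by simp, a5, a6, a7, a8⟩ s2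
        (Sys.Steps.cons ⟨by simp, a5, a6, a7, a8⟩ s3
        (Sys.Steps.one ⟨by simp, a5, a6, a7, a8⟩ rfl))), ?_⟩
      simp only [I, P, Old, bSys, bOf, bSel, bTrans, Mv.app, e2, e1, e3]
      refine ⟨_, _, rfl, by simp [b1, res_succ], b2, by simp, by simp, by simp, ?_, ?_, ?_,
        by simp, ?_, ?_, ?_, ?_⟩
      · cases par <;> simp [hd1, hd2, hd3]
      · by_cases hl : l.r = Fin.last M
        · rw [div_succ_last (b1 ▸ hl), pr, ← hw, ← hz]
          by_cases hw0 : w = 0 <;> cases par <;> simp [hd1, hd2, hd3, hl, hw0, Mv.app]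
        · rw [div_succ_nlast (b1 ▸ hl), ← hw]
          cases par <;> simp [hd1, hd2, hd3, hl, Mv.app]
      · by_cases hl : l.r = Fin.last M
        · rw [div_succ_last (b1 ▸ hl), pr, ← hw, ← hz]
          by_cases hw0 : w = 0 <;> cases par <;> simp [hd1, hd2, hd3, hl, hw0, Mv.app]
        · rw [div_succ_nlast (b1 ▸ hl), ← hz]
          cases par <;> simp [hd1, hd2, hd3, hl, Mv.app]
      · intro k t
        by_cases h : k = n
        · rw [if_pos h, h]; rfl
        · rw [if_neg h]; exact a5 k t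
      · by_cases h : 0 = n
        · rw [if_pos h, ← h]; exact a6
        · rw [if_neg h]; exact a6
      · by_cases h : 0 = n
        · rw [if_pos h, ← h]; exact a7
        · rw [if_neg h]; exact a7
      · intro k hk t
        by_cases h : k = n
        · rw [if_pos h, h]; rfl
        · rw [if_neg h]; exact a8 k (by omega) t)
    (fun n z hz => ⟨hz.1, hz.2.1⟩) (x := ⟨.lim, hd, C⟩) ⟨by simp, ho⟩ (by
      simp only [I, P, Old, bSys, bOf, bSel, bTrans, hh, hp, hd1, e0, e00, Mv.app, if_true,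
        if_false, Bool.false_eq_true]
      refine ⟨_, _, rfl, by simp [res], rfl, rfl, by simp, by simp, by simp, by simp [pr],
        by simp [pr], by simp, fun k t => ?_, rfl, rfl, by simp⟩
      split_ifs with h
      · subst h; rfl
      · exact ho k t)
  exact ⟨h1, fun n t => h2 (.old t, n) _ 0 (fun _ _ z hz => hz.2.1 n t),
    h2 (.psi, 0) _ 0 (fun _ _ z hz => hz.2.2.1), h2 (.d1, 0) _ 0 (fun _ _ z hz => hz.2.2.2.1),
    fun n t => h2 (.new t, n) _ (n + 1) (fun _ hk z hz => hz.2.2.2.2 n (by omega) t)⟩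

theorem phase2 (x : BC K T G M) (m m' : ℕ → T → Bool) (hs : x.state = .lim)
    (hh : ∀ h, x.head h = 0)
    (hp : x.col 0 .psi = false) (hd1 : x.col 0 .d1 = true) (ho : Old x m)
    (hn : ∀ n t, x.col n (.new t) = m' n t) :
    (∀ s : O, s < ω → ((bSys (bOf D K)).run x s).state ≠ .halt ∧
      ∀ n t, ((bSys (bOf D K)).run x s).col n (.old t) = true → m n t = true ∨ m' n t = true) ∧
    Old ((bSys (bOf D K)).run x ω) m' ∧ ((bSys (bOf D K)).run x ω).col 0 .psi = true := by
  obtain ⟨s, hd, C⟩ := x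
  simp only at hs hh hp hd1 hn
  subst hs
  let P : ℕ → BC K T G M → Prop := fun n z => z.state ≠ .halt ∧
    (∀ k t, z.col k (.new t) = m' k t) ∧
    (∀ k t, z.col k (.old t) = if k < n then m' k t else m k t) ∧ (0 < n → z.col 0 .psi = true)
  let I : ℕ → BC K T G M → Prop := fun n z => z.state = .cp ∧ z.head .main = n ∧ P n z
  obtain ⟨h1, h2⟩ := Sys.omega_phase' (S := bSys (bOf D K)) I P
    (fun z => z.state ≠ .halt ∧ ∀ n t, z.col n (.old t) = true → m n t = true ∨ m' n t = true) (by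
      rintro n ⟨s, hd, C⟩ ⟨a1, a2, a4, a5, a6, a7⟩
      simp only at a1 a2 a4 a5 a6 a7
      subst a1
      refine ⟨_, Sys.Steps.one ⟨a4, a5, a6, a7⟩ rfl, ?_⟩
      simp only [I, P, bSys, bOf, bSel, bTrans, Mv.app, a2]
      refine ⟨trivial, by simp, by simp, fun k t => ?_, fun k t => ?_, fun _ => ?_⟩
      · by_cases h : k = n
        · rw [if_pos h, h]; exact a5 n t
        · rw [if_neg h]; exact a5 k t
      · by_cases h : k = n
        · rw [if_pos h, h, if_pos (by omega)]; exact a5 n t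
        · rw [if_neg h, a6]
          have : k < n + 1 ↔ k < n := by omega
          simp only [this]
      · by_cases h : 0 = n
        · rw [if_pos h]; rfl
        · rw [if_neg h]; exact a7 (by omega))
    (fun n z hz => ⟨hz.1, fun k t hk => by
      rw [hz.2.2.1] at hk
      split_ifs at hk
      · exact Or.inr hk
      · exact Or.inl hk⟩) (x := ⟨.lim, hd, C⟩)
      ⟨by simp, fun n t h => Or.inl ((ho n t).symm.trans h)⟩ (by
      simp only [I, P, bSys, bOf, bSel, bTrans, hh, hp, hd1, Mv.app, if_true,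
        if_false, Bool.false_eq_true, same_col]
      exact ⟨trivial, by simp, by simp, hn, fun k t => by simpa using ho k t, by simp⟩)
  refine ⟨h1, fun n t => h2 (.old t, n) _ (n + 1) (fun k hk z hz => ?_),
    h2 (.psi, 0) _ 1 (fun _ hk z hz => hz.2.2.2 (by omega))⟩
  exact (hz.2.2.1 n t).trans (if_pos (by omega))

theorem phaseI (y : ℕ → Bool) (C : ℕ → BT K T G → Bool)
    (hy : ∀ n j, C n (.inp j) = y (n * (K + 1) + j.1)) :
    (bSys (bOf D K)).Alive ⟨.i1 0, fun _ => 0, C⟩ ω ∧
    Old ((bSys (bOf D K)).run ⟨.i1 0, fun _ => 0, C⟩ ω) (fun n => D.ini (decide (n = 0)) (y n)) ∧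
      ((bSys (bOf D K)).run ⟨.i1 0, fun _ => 0, C⟩ ω).col 0 .psi = true := by
  let P : ℕ → BC K T G M → Prop := fun n z => z.state ≠ .halt ∧
    (∀ k j, z.col k (.inp j) = y (k * (K + 1) + j.1)) ∧
    (∀ k, k < n → ∀ t, z.col k (.old t) = D.ini (decide (k = 0)) (y k) t) ∧
    (0 < n → z.col 0 .psi = true)
  let I : ℕ → BC K T G M → Prop := fun n z => z.state = .i1 (res K n) ∧ z.head .main = n ∧
    z.head .nx = n / (K + 1) ∧ P n z
  obtain ⟨h1, h2⟩ := Sys.omega_phase (S := bSys (bOf D K)) I P (by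
      rintro n ⟨s, hd, C⟩ ⟨a1, a2, a3, a4, a5, a6, a7⟩
      simp only at a1 a2 a3 a4 a5 a6 a7
      subst a1
      have e1 : C (n / (K + 1)) (.inp (res K n)) = y n := by
        rw [a5]
        congr 1
        simp only [res]
        rw [mul_comm]
        exact Nat.div_add_mod n (K + 1)
      let hd1 : HH → ℕ := fun h => if h = .nx then
        (if res K n = Fin.last K then Mv.R else Mv.S).app (n / (K + 1)) else hd h
      have s1 : (bSys (bOf D K)).step ⟨.i1 (res K n), hd, C⟩ = ⟨.i2 (res K n) (y n), hd1, C⟩ := by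
        simp only [bSys, bOf, bSel, bTrans, a3, e1, same_col, hd1]
      have e2 : hd1 .main = n := by simp [hd1, a2]
      refine ⟨_, Sys.Steps.cons ⟨a4, a5, a6, a7⟩ s1 (Sys.Steps.one ⟨by simp, a5, a6, a7⟩ rfl), ?_⟩
      simp only [I, P, bSys, bOf, bSel, bTrans, Mv.app, e2]
      refine ⟨by rw [res_succ], by simp, ?_, by simp, fun k t => ?_, fun k hk t => ?_, fun _ => ?_⟩
      · by_cases hl : res K n = Fin.last K
        · rw [div_succ_last hl]; simp [hd1, hl, Mv.app]
        · rw [div_succ_nlast hl]; simp [hd1, hl, Mv.app]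
      · by_cases h : k = n
        · rw [if_pos h, h]; exact a5 n t
        · rw [if_neg h]; exact a5 k t
      · by_cases h : k = n
        · rw [if_pos h, h]; rfl
        · rw [if_neg h]; exact a6 k (by omega) t
      · by_cases h : 0 = n
        · rw [if_pos h]; rfl
        · rw [if_neg h]; exact a7 (by omega)) (x := ⟨.i1 0, fun _ => 0, C⟩)
      ⟨by simp [res], rfl, by simp, by simp, hy, by simp, by simp⟩
  refine ⟨fun s hs => ?_, fun n t => h2 (.old t, n) _ (n + 1) (fun k hk z hz => ?_),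
    h2 (.psi, 0) _ 1 (fun _ hk z hz => hz.2.2.2 (by omega))⟩
  · obtain ⟨n, hn⟩ := h1 s hs
    exact hn.1
  · exact hz.2.2.1 n (by omega) t

def RM (x : BC K T G M) (m : ℕ → T → Bool) : Prop :=
  x.state = .lim ∧ (∀ h, x.head h = 0) ∧ x.col 0 .psi = true ∧ Old x m

theorem run_lim_state (x : BC K T G M) {l : O} (hl : IsSuccLimit l) :
    ((bSys (bOf D K)).run x l).state = .lim ∧ ∀ h, ((bSys (bOf D K)).run x l).head h = 0 := by
  rw [Sys.run_limit_eq _ _ hl]
  exact ⟨rfl, fun _ => rfl⟩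

theorem simM : Sim (bSys (bOf D K)) (mSys D) RM (fun i => (.old i.1, i.2)) {(.psi, 0)}
    (· = ω * 3) where
  dflt := ⟨_, rfl, mul_pos omega0_pos (by norm_num)⟩
  cel := by
    rintro x m ⟨-, -, -, h⟩ ⟨t, n⟩
    exact h n t
  fl := by
    rintro x m ⟨-, -, h, -⟩ j hj
    rw [Set.mem_singleton_iff.1 hj]
    exact h
  blk := by
    rintro x m ⟨h1, h2, h3, h4⟩ hq
    obtain ⟨a1, a2, a3, a4, a5⟩ := phase0 D x m h1 h2 h3 h4 hq
    obtain ⟨a6, a7⟩ := run_lim_state D x isSuccLimit_omega0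
    obtain ⟨b1, b2, b3, b4, b5⟩ := phase1 D _ m a6 a7 a3 a4 a2 a5
    obtain ⟨b6, b7⟩ := run_lim_state D ((bSys (bOf D K)).run x ω) isSuccLimit_omega0
    obtain ⟨c1, c2, c3⟩ := phase2 D _ m _ b6 b7 b3 b4 b2 b5
    obtain ⟨c6, c7⟩ := run_lim_state D ((bSys (bOf D K)).run ((bSys (bOf D K)).run x ω) ω)
      isSuccLimit_omega0
    have e : (ω * 3 : O) = ω + ω + ω := by
      rw [show (3 : O) = 1 + 1 + 1 by norm_num, mul_add, mul_add, mul_one]
    have key : ∀ s, s < ω * 3 → ((bSys (bOf D K)).run x s).state ≠ .halt ∧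
        ∀ n t, ((bSys (bOf D K)).run x s).col n (.old t) = true →
          m n t = true ∨ (mSys D).step m n t = true := by
      intro s hs
      rw [e] at hs
      rcases lt_or_ge s ω with h | h
      · exact ⟨(a1 s h).1, fun n t h' => Or.inl (((a1 s h).2 n t).symm.trans h')⟩
      · obtain ⟨s, rfl⟩ := exists_add_of_le h
        rw [add_assoc, add_lt_add_iff_left] at hs
        rw [Sys.run_add]
        rcases lt_or_ge s ω with h | h
        · exact ⟨(b1 s h).1, fun n t h' => Or.inl (((b1 s h).2 n t).symm.trans h')⟩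
        · obtain ⟨s, rfl⟩ := exists_add_of_le h
          rw [add_lt_add_iff_left] at hs
          rw [Sys.run_add]
          exact c1 s hs
    refine ⟨_, rfl, mul_pos omega0_pos (by norm_num), ?_, fun s hs => (key s hs).1,
      fun i s hs => (key s hs).2 i.2 i.1⟩
    rw [e, Sys.run_add, Sys.run_add]
    exact ⟨c6, c7, c3, c2⟩
  hlt := by
    rintro ⟨s, hd, C⟩ m ⟨h1, h2, h3, h4⟩ hq
    simp only at h1 h2 h3
    subst h1
    replace hq : D.stop (m 0) := hq
    have e0 : C 0 ∘ BT.old = m 0 := funext (h4 0)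
    apply Sys.res_step _ (by simp [bSys, bOf])
    have := (bSys (bOf D K)).res_halt (a := (bSys (bOf D K)).step ⟨.lim, hd, C⟩)
      (by simp [bSys, bOf, bSel, bTrans, h2, h3, e0, hq])
    have e1 : (bSys (bOf D K)).out ((bSys (bOf D K)).step ⟨.lim, hd, C⟩) = (mSys D).out m := by
      simp [bSys, bOf, bSel, bTrans, h2, h3, e0, hq, mSys, BT.wr]
    rwa [e1] at this
  lim := fun v hv => ⟨rfl, fun _ => rfl, hv _ rfl, fun _ _ => rfl⟩

theorem presM (y : ℕ → Bool) (C : ℕ → BT K T G → Bool)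
    (hy : ∀ n j, C n (.inp j) = y (n * (K + 1) + j.1)) {t : O} {b : Bool}
    (h : (mSys D).PRes (fun n => D.ini (decide (n = 0)) (y n)) t b) :
    (bSys (bOf D K)).PRes ⟨(bOf D K).start, fun _ => 0, C⟩ (ω + ω * 3 * t) b := by
  obtain ⟨a1, a2, a3⟩ := phaseI D y C hy
  obtain ⟨a6, a7⟩ := run_lim_state D ⟨.i1 0, fun _ => 0, C⟩ isSuccLimit_omega0
  obtain ⟨len, h1, h2⟩ := (simM D).main ⟨a6, a7, a3, a2⟩
  obtain ⟨h3, h4⟩ := h2 t h.1
  rw [tau_const len _ h1] at h3 h4
  refine ⟨Sys.alive_add _ a1 h4, ?_⟩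
  rw [Sys.run_add]
  apply Sys.res_step _ (by simp [bSys, bOf])
  refine (simM D).res ?_ h.2
  have key : ∀ (x : BC K T G M) m, RM x m →
      RM ((bSys (bOf D K)).step ((bSys (bOf D K)).ovr x)) ((mSys D).ovr m) := by
    rintro ⟨s, hd, C⟩ m ⟨b1, b2, b3, b4⟩
    simp only at b1 b2 b3
    have e0 : C 0 ∘ BT.old = m 0 := funext (b4 0)
    simp only [RM, Old, bSys, bOf, bSel, bTrans, mSys, b2, e0, Mv.app]
    refine ⟨trivial, by simp, b3, fun n t => ?_⟩
    by_cases h : n = 0
    · rw [if_pos h, if_pos h]; rfl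
    · rw [if_neg h, if_neg h]; exact b4 n t
  exact key _ _ h3

end Pool.Agent.MP_bf5815_lc
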