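import Pool.Agent.MP_bf5815_lc.Big2

namespace Pool.Agent.MP_bf5815_lc

open Ordinal Order
open scoped Classical

variable {T G : Type} {M : ℕ}

def embTr {K : ℕ} (g : T ⊕ T ⊕ G ⊕ Bool ⊕ Option HH → Fin (K + 1)) :
    BT K T G ⊕ Option HH → WT K
  | .inl (.inp j) => (j, 0)
  | .inl .outc => (0, 2)
  | .inl (.old t) => (g (.inl t), 1)
  | .inl (.new t) => (g (.inr (.inl t)), 1)
  | .inl (.tmp a) => (g (.inr (.inr (.inl a))), 1)
  | .inl .psi => (g (.inr (.inr (.inr (.inl true)))), 1)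
  | .inl .d1 => (g (.inr (.inr (.inr (.inl false)))), 1)
  | .inr o => (g (.inr (.inr (.inr (.inr o)))), 1)

theorem embTr_inj {K : ℕ} (g : T ⊕ T ⊕ G ⊕ Bool ⊕ Option HH → Fin (K + 1))
    (hg : Function.Injective g) : Function.Injective (embTr g) := by
  rintro (a | a) (b | b) h
  · cases a <;> cases b <;> simp_all [embTr, hg.eq_iff]
  · cases a <;> simp_all [embTr, hg.eq_iff]
  · cases b <;> simp_all [embTr, hg.eq_iff]
  · simp_all [embTr, hg.eq_iff]

theorem isSuccLimit_time (t : O) : IsSuccLimit (ω + ω * 3 * t) := by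
  rcases eq_or_ne t 0 with rfl | h
  · simp
  · apply isSuccLimit_add
    rw [mul_assoc]
    exact isSuccLimit_mul_left isSuccLimit_omega0
      (mul_pos (by norm_num) (pos_iff_ne_zero.2 h))

theorem recog_of_big [Finite T] [Finite G] (D : MProg T G M) (t : O) (x : ℕ → Bool)
    (h : ∀ y : ℕ → Bool, ∃ b, (mSys D).PRes (fun n => D.ini (decide (n = 0)) (y n)) t b ∧
      (b = true ↔ y = x)) : Recognizable (ω + ω * 3 * t) x := by
  obtain ⟨K, ⟨e⟩⟩ := Finite.exists_equiv_fin (T ⊕ T ⊕ G ⊕ Bool ⊕ Option HH)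
  let g : T ⊕ T ⊕ G ⊕ Bool ⊕ Option HH → Fin (K + 1) := fun a => (e a).castSucc
  have hg : Function.Injective g := fun a b hab => e.injective (Fin.castSucc_injective _ hab)
  refine ⟨_, inferInstance, rawOf ((aOf (bOf D K)).relabel (embTr g)), fun y => ?_⟩
  obtain ⟨b, h1, h2⟩ := h y
  have hl := isSuccLimit_time t
  obtain ⟨s, h3, h4⟩ := halts_of_pres _ (presA ((aOf (bOf D K)).relabel (embTr g)) rfl y hl
    (presRel _ _ (embTr_inj g hg) _ hl (presB _ _ hl (presM D y _ (fun n j => rfl) h1))))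
  exact ⟨s, h3, by rw [h4]; exact h2⟩

end Pool.Agent.MP_bf5815_lc
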