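import Mathlib

/-! Infinite time Turing machines (Hamkins and Lewis) with one ordinal parameter. -/

namespace Pool.Agent.MP_bf5815_lc

open Classical

/-- A program with state set `Q`. There are four distinct designated states: start, limit,
halting and special. The transition function reads the state and the three symbols under the head
(tape 0 = input, tape 1 = scratch, tape 2 = output) and returns the new state, the three symbols
to be written, and the direction of the head move (`true` = right, `false` = left). -/
structure Prog (Q : Type) where
  start : Q
  lim : Q
  halt : Q
  spec : Q
  distinct : [start, lim, halt, spec].Nodup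
  trans : Q → (Fin 3 → Bool) → Q × (Fin 3 → Bool) × Bool

/-- A configuration: state, head position, contents of the three tapes. -/
structure Config (Q : Type) where
  state : Q
  head : ℕ
  tape : Fin 3 → ℕ → Bool

/-- One ordinary Turing machine step (a left move at cell 0 leaves the head at cell 0). -/
def Prog.step {Q : Type} (P : Prog Q) (c : Config Q) : Config Q :=
  let r := P.trans c.state (fun k => c.tape k c.head)
  { state := r.1
    head := if r.2.2 then c.head + 1 else c.head - 1
    tape := fun k n => if n = c.head then r.2.1 k else c.tape k n }

/-- The initial configuration on input `y`: start state, head on cell 0, `y` on the input tape,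
the other two tapes blank. -/
def Prog.init {Q : Type} (P : Prog Q) (y : ℕ → Bool) : Config Q :=
  { state := P.start
    head := 0
    tape := fun k n => if k = 0 then y n else false }

/-- At time `t = α` the machine is put into the special state; otherwise nothing changes. -/
noncomputable def Prog.interrupt {Q : Type} (P : Prog Q) (α t : Ordinal.{0}) (c : Config Q) :
    Config Q :=
  if t = α then { c with state := P.spec } else c

/-- The configuration at time `t` of the run of `P` on input `y` with parameter `α`.
At a limit time the state is the limit state, the head is on cell 0, and a cell holds 1 iff it
held 1 at unboundedly many earlier times (the limsup). -/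
noncomputable def Prog.run {Q : Type} (P : Prog Q) (α : Ordinal.{0}) (y : ℕ → Bool)
    (t : Ordinal.{0}) : Config Q :=
  Ordinal.limitRecOn (motive := fun _ => Config Q) t
    (P.interrupt α 0 (P.init y))
    (fun s c => P.interrupt α (s + 1) (P.step c))
    (fun l _ f => P.interrupt α l
      { state := P.lim
        head := 0
        tape := fun k n =>
          decide (∀ s, s < l → ∃ r, ∃ h : r < l, s ≤ r ∧ (f r h).tape k n = true) })

/-- The run of `P` on `y` with parameter `α` halts at time `t`: `t` is the first time at which the
state is the halting state. -/
def Prog.HaltsAt {Q : Type} (P : Prog Q) (α : Ordinal.{0}) (y : ℕ → Bool) (t : Ordinal.{0}) :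
    Prop :=
  (P.run α y t).state = P.halt ∧ ∀ s, s < t → (P.run α y s).state ≠ P.halt

/-- `x` is ITTM-recognizable from `α`: some finite program halts on every input `y` with parameter
`α`, and accepts (cell 0 of the output tape holds 1 at the halting time) iff `y = x`. -/
def Recognizable (α : Ordinal.{0}) (x : ℕ → Bool) : Prop :=
  ∃ (Q : Type) (_ : Finite Q) (P : Prog Q), ∀ y : ℕ → Bool,
    ∃ t, P.HaltsAt α y t ∧ ((P.run α y t).tape 2 0 = true ↔ y = x)

end Pool.Agent.MP_bf5815_lc
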