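import Pool.Agent.MP_bf5815_lc.Inj
import Pool.Agent.MP_bf5815_lc.Compile

/-! The recognizing machine: main simulation, restarted simulation, snapshot, and one test bit. -/

namespace Pool.Agent.MP_bf5815_lc

open Ordinal Order
open scoped Classical

inductive GR | U | V | S | Y
  deriving Fintype

inductive XT | ev | seeded | cnt | mode | rej
  deriving Fintype

abbrev FT (Q : Type) := (GR × TU Q) ⊕ XT
abbrev FG := (GR × Fin 3) ⊕ Unit

variable {Q : Type} (P : Prog Q) {M : ℕ} (dec : Fin (M + 1) → TB × TU Q) (b0 : Bool)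

def grp (g : GR) (c : FT Q → Bool) : TU Q → Bool := fun τ => c (.inl (g, τ))

def Loc.grp (g : GR) (l : Loc (FT Q) M) : Loc (TU Q) M :=
  ⟨l.r, MP_bf5815_lc.grp g l.c0, MP_bf5815_lc.grp g l.prev, l.p0, MP_bf5815_lc.grp g l.cur, l.u0,
    MP_bf5815_lc.grp g l.next, MP_bf5815_lc.grp g l.cz, l.z0, MP_bf5815_lc.grp g l.cw⟩

def rst (c0 : FT Q → Bool) : Bool := isL (grp .U c0) && c0 (.inr .ev)

def src (r h : Bool) : GR := if (r || h) = true then .Y else .V

noncomputable def fUpd (a : FG → Bool) (l : Loc (FT Q) M) : FT Q → Bool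
  | .inl (.U, τ) => uUpd P dec (fun k => a (.inl (.U, k))) (l.grp .U) τ
  | .inl (.V, τ) => uUpd P dec (fun k => a (.inl (src (rst l.c0) (!a (.inr ())), k)))
      (l.grp (src (rst l.c0) (!a (.inr ())))) τ
  | .inl (.S, τ) => if rst l.c0 = true then l.cur (.inl (.U, τ)) else l.cur (.inl (.S, τ))
  | .inl (.Y, τ) => l.cur (.inl (.Y, τ))
  | .inr .ev => rst l.c0 || !a (.inr ()) || !l.c0 (.inr .seeded)
  | .inr .seeded => l.c0 (.inr .seeded) || rst l.c0
  | .inr .cnt => !rst l.c0 && (!a (.inr ()) || l.c0 (.inr .cnt))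
  | .inr .mode => l.c0 (.inr .mode)
  | .inr .rej => l.c0 (.inr .rej)

noncomputable def fProg : MProg (FT Q) FG M where
  ini z b := Sum.elim (fun i => uIni P z b i.2) (fun _ => false)
  contrib c := Sum.elim (fun i => c (.inl (i.1, .hd)) && c (.inl (i.1, .tape i.2)))
    (fun _ => decide (∃ τ, c (.inl (.V, τ)) ≠ c (.inl (.S, τ))))
  upd := fUpd P dec
  stop c := c (.inr .rej) = true ∨ (c (.inr .mode) = true ∧ c (.inl (.U, .halted)) = true)
  out c := !c (.inr .rej) && c (.inl (.U, .tape 2))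
  jump c := if c (.inr .cnt) = b0 then
      Function.update (Function.update c (.inl (.U, .ov)) true) (.inr .mode) true
    else Function.update c (.inr .rej) true

noncomputable abbrev fSys := mSys (fProg P dec b0)

def pj (g : GR) (m : ℕ → FT Q → Bool) : ℕ → TU Q → Bool := fun n => grp g (m n)

noncomputable def hit (m : ℕ → FT Q → Bool) : Bool := decide (pj .V m = pj .S m)

theorem acc_diff (m : ℕ → FT Q → Bool) : (!(fProg P dec b0).acc m (.inr ())) = hit m := by
  rw [Bool.eq_iff_iff]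
  simp only [MProg.acc, fProg, hit, Sum.elim_inr, decide_eq_true_eq, Bool.not_eq_true',
    decide_eq_false_iff_not, not_exists, ne_eq, not_not]
  constructor
  · intro h
    funext n τ
    exact h n τ
  · intro h n τ
    exact congrFun (congrFun h n) τ

theorem step_U (m : ℕ → FT Q → Bool) :
    pj .U ((fSys P dec b0).step m) = (uSys P dec).step (pj .U m) := rfl

theorem step_V (m : ℕ → FT Q → Bool) :
    pj .V ((fSys P dec b0).step m) = (uSys P dec).step (pj (src (rst (m 0)) (hit m)) m) := by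
  rw [← acc_diff P dec b0]
  rfl

theorem step_S (m : ℕ → FT Q → Bool) :
    pj .S ((fSys P dec b0).step m) = if rst (m 0) = true then pj .U m else pj .S m := by
  funext n τ
  show (if rst (m 0) = true then m n (.inl (.U, τ)) else m n (.inl (.S, τ))) = _
  split_ifs <;> rfl

theorem step_Y (m : ℕ → FT Q → Bool) : pj .Y ((fSys P dec b0).step m) = pj .Y m := rfl

theorem step_ev (m : ℕ → FT Q → Bool) : (fSys P dec b0).step m 0 (.inr .ev) =
    (rst (m 0) || hit m || !m 0 (.inr .seeded)) := by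
  rw [← acc_diff P dec b0]
  rfl

theorem step_seeded (m : ℕ → FT Q → Bool) : (fSys P dec b0).step m 0 (.inr .seeded) =
    (m 0 (.inr .seeded) || rst (m 0)) := rfl

theorem step_cnt (m : ℕ → FT Q → Bool) : (fSys P dec b0).step m 0 (.inr .cnt) =
    (!rst (m 0) && (hit m || m 0 (.inr .cnt))) := by
  rw [← acc_diff P dec b0]
  rfl

theorem pj_limit (g : GR) (m : ℕ → FT Q → Bool) (u : ℕ → TU Q → Bool) {l : O}
    (hl : IsSuccLimit l) (h : ∀ r, 0 < r → r < l →
      pj g ((fSys P dec b0).run m r) = (uSys P dec).run u r) :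
    pj g ((fSys P dec b0).run m l) = (uSys P dec).run u l := by
  funext n τ
  show (fSys P dec b0).cell ((fSys P dec b0).run m l) (.inl (g, τ), n) =
    (uSys P dec).cell ((uSys P dec).run u l) (τ, n)
  have h1 : (1 : O) < l := by simpa using hl.add_one_lt hl.bot_lt
  rw [Bool.eq_iff_iff, Sys.cell_limit _ _ hl, Sys.cell_limit _ _ hl]
  constructor <;> intro H s hs <;> obtain ⟨r, a1, a2, a3⟩ := H (max s 1) (max_lt hs h1)
  · have := h r (lt_of_lt_of_le zero_lt_one ((le_max_right _ _).trans a2)) a1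
    exact ⟨r, a1, (le_max_left _ _).trans a2, (congrFun (congrFun this n) τ).symm.trans a3⟩
  · have := h r (lt_of_lt_of_le zero_lt_one ((le_max_right _ _).trans a2)) a1
    exact ⟨r, a1, (le_max_left _ _).trans a2, (congrFun (congrFun this n) τ).trans a3⟩

theorem pj_limit_const (g : GR) (m : ℕ → FT Q → Bool) (u : ℕ → TU Q → Bool) {l : O}
    (hl : IsSuccLimit l) (h : ∀ r, 0 < r → r < l → pj g ((fSys P dec b0).run m r) = u) :
    pj g ((fSys P dec b0).run m l) = u := by
  funext n τ
  have h1 : (1 : O) < l := by simpa using hl.add_one_lt hl.bot_lt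
  exact (fSys P dec b0).cell_limit_const m hl (.inl (g, τ), n) _ h1
    (fun r a1 a2 => congrFun (congrFun (h r (lt_of_lt_of_le zero_lt_one a1) a2) n) τ)

theorem run_U (m : ℕ → FT Q → Bool) (t : O) :
    pj .U ((fSys P dec b0).run m t) = (uSys P dec).run (pj .U m) t := by
  induction t using Ordinal.limitRecOn with
  | zero => simp
  | add_one t ih => rw [Sys.run_succ, Sys.run_succ, step_U, ih]
  | limit l hl ih => exact pj_limit P dec b0 _ _ _ hl (fun r _ hr => ih r hr)

theorem run_Y (m : ℕ → FT Q → Bool) (t : O) : pj .Y ((fSys P dec b0).run m t) = pj .Y m := by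
  induction t using Ordinal.limitRecOn with
  | zero => simp
  | add_one t ih => rw [Sys.run_succ, step_Y, ih]
  | limit l hl ih => exact pj_limit_const P dec b0 _ _ _ hl (fun r _ hr => ih r hr)

theorem run_mode (m : ℕ → FT Q → Bool) (t : O) :
    (fSys P dec b0).run m t 0 (.inr .mode) = m 0 (.inr .mode) := by
  induction t using Ordinal.limitRecOn with
  | zero => simp
  | add_one t ih => rw [Sys.run_succ, ← ih]; rfl
  | limit l hl ih =>
    exact (fSys P dec b0).cell_limit_const m hl (.inr .mode, 0) _ hl.bot_lt (fun r _ hr => ih r hr)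

theorem run_rej (m : ℕ → FT Q → Bool) (t : O) :
    (fSys P dec b0).run m t 0 (.inr .rej) = m 0 (.inr .rej) := by
  induction t using Ordinal.limitRecOn with
  | zero => simp
  | add_one t ih => rw [Sys.run_succ, ← ih]; rfl
  | limit l hl ih =>
    exact (fSys P dec b0).cell_limit_const m hl (.inr .rej, 0) _ hl.bot_lt (fun r _ hr => ih r hr)

theorem rst_step (m : ℕ → FT Q → Bool) : rst ((fSys P dec b0).step m 0) = false := by
  have := isL_step P dec (pj .U m)
  rw [← step_U P dec b0] at this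
  rw [rst]
  exact (congrArg (· && _) this).trans (Bool.false_and _)

/-- The state of the auxiliary parts `r` steps after an event. -/
def Seg (u : ℕ → TU Q → Bool) (δ : O) (c : Bool) (m : ℕ → FT Q → Bool) (r : O) : Prop :=
  pj .V m = (uSys P dec).run u r ∧ pj .S m = (uSys P dec).run u δ ∧ m 0 (.inr .cnt) = c ∧
    m 0 (.inr .seeded) = true ∧ m 0 (.inr .ev) = decide (r = 1)

theorem seg_run (u : ℕ → TU Q → Bool) (δ : O) (c : Bool) (m : ℕ → FT Q → Bool)
    (hi : ∀ r, r < δ → (uSys P dec).run u r ≠ (uSys P dec).run u δ)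
    (h : Seg P dec u δ c ((fSys P dec b0).step m) 1) (r : O) (h0 : 0 < r) (hr : r ≤ δ) :
    Seg P dec u δ c ((fSys P dec b0).run m r) r := by
  induction r using Ordinal.limitRecOn with
  | zero => exact absurd h0 (lt_irrefl _)
  | add_one r ih =>
    rcases eq_or_ne r 0 with rfl | h1
    · rw [zero_add, Sys.run_one]; exact h
    have h2 : r < δ := (lt_add_one r).trans_le hr
    obtain ⟨a1, a2, a3, a4, a5⟩ := ih (pos_iff_ne_zero.2 h1) h2.le
    have e1 : rst ((fSys P dec b0).run m r 0) = false := by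
      rcases eq_or_ne r 1 with rfl | h3
      · rw [Sys.run_one, rst_step]
      · rw [rst, a5, decide_eq_false h3, Bool.and_false]
    have e2 : hit ((fSys P dec b0).run m r) = false := by
      rw [hit, a1, a2]
      exact decide_eq_false (hi r h2)
    have e3 : r + 1 ≠ 1 := by
      have : (1 : O) < r + 1 := lt_add_one_iff.2 (one_le_iff_ne_zero.2 h1)
      exact this.ne'
    rw [Sys.run_succ]
    refine ⟨?_, ?_, ?_, ?_, ?_⟩
    · rw [step_V, e1, e2, Sys.run_succ, ← a1]; rfl
    · rw [step_S, e1, ← a2]; rfl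
    · rw [step_cnt, e1, e2, a3]; simp
    · rw [step_seeded, a4]; simp
    · rw [step_ev, e1, e2, a4, decide_eq_false e3]; simp
  | limit l hl ih =>
    have ih' := fun r (a : 0 < r) (b : r < l) => ih r b a (b.le.trans hr)
    have h1 : (1 : O) < l := by simpa using hl.add_one_lt hl.bot_lt
    refine ⟨pj_limit P dec b0 _ _ _ hl (fun r a b => (ih' r a b).1),
      pj_limit_const P dec b0 _ _ _ hl (fun r a b => (ih' r a b).2.1),
      (fSys P dec b0).cell_limit_const m hl (.inr .cnt, 0) _ h1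
        (fun r a b => (ih' r (lt_of_lt_of_le zero_lt_one a) b).2.2.1),
      (fSys P dec b0).cell_limit_const m hl (.inr .seeded, 0) _ h1
        (fun r a b => (ih' r (lt_of_lt_of_le zero_lt_one a) b).2.2.2.1), ?_⟩
    rw [decide_eq_false h1.ne']
    refine (fSys P dec b0).cell_limit_const m hl (.inr .ev, 0) _ (hl.add_one_lt h1)
      (fun r a b => ?_)
    have a' : 1 < r := (lt_add_one 1).trans_le a
    exact (ih' r (zero_lt_one.trans a') b).2.2.2.2.trans (decide_eq_false a'.ne')

theorem seg_mul (m : ℕ → FT Q → Bool) (hUY : pj .Y m = pj .U m) (δ : O) (hδ : 1 < δ)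
    (hi : ∀ r, r < δ → (uSys P dec).run (pj .U m) r ≠ (uSys P dec).run (pj .U m) δ)
    (hr : rst ((fSys P dec b0).run m δ 0) = true) (j : ℕ) :
    Seg P dec (pj .U m) δ (decide (0 < j))
      ((fSys P dec b0).step ((fSys P dec b0).run m (δ * (j + 1 : ℕ)))) 1 := by
  induction j with
  | zero =>
    simp only [zero_add, Nat.cast_one, mul_one]
    refine ⟨?_, ?_, ?_, ?_, ?_⟩
    · rw [step_V, hr, Sys.run_one, ← hUY, ← run_Y P dec b0 m δ]; rfl
    · rw [step_S, hr, ← run_U P dec b0]; rfl
    · rw [step_cnt, hr]; simp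
    · rw [step_seeded, hr]; simp
    · rw [step_ev, hr]; simp
  | succ j ih =>
    obtain ⟨a1, a2, a3, a4, a5⟩ := seg_run P dec b0 _ δ _ _ hi ih δ (zero_lt_one.trans hδ) le_rfl
    rw [← Sys.run_add, ← mul_add_one, ← Nat.cast_add_one] at a1 a2 a3 a4 a5
    have e1 : rst ((fSys P dec b0).run m (δ * (j + 1 + 1 : ℕ)) 0) = false := by
      rw [rst, a5, decide_eq_false hδ.ne', Bool.and_false]
    have e2 : hit ((fSys P dec b0).run m (δ * (j + 1 + 1 : ℕ))) = true := by
      rw [hit, a1, a2]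
      exact decide_eq_true rfl
    refine ⟨?_, ?_, ?_, ?_, ?_⟩
    · rw [step_V, e1, e2, Sys.run_one, ← hUY, ← run_Y P dec b0 m (δ * (j + 1 + 1 : ℕ))]; rfl
    · rw [step_S, e1, ← a2]; rfl
    · rw [step_cnt, e1, e2]; simp
    · rw [step_seeded, a4]; simp
    · rw [step_ev, e2]; simp

noncomputable abbrev m0 (y : ℕ → Bool) : ℕ → FT Q → Bool :=
  fun n => (fProg P dec b0).ini (decide (n = 0)) (y n)

theorem unseeded (y : ℕ → Bool) (n : ℕ) :
    (fSys P dec b0).run (m0 P dec b0 y) n 0 (.inr .seeded) = false := by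
  induction n with
  | zero => simp [m0, fProg]
  | succ n ih =>
    rw [Nat.cast_succ, Sys.run_succ, step_seeded, ih]
    cases n with
    | zero => simp [m0, rst, isL, grp, fProg, uIni]
    | succ n => rw [Nat.cast_succ, Sys.run_succ, rst_step]; rfl

theorem reset_principal (y : ℕ → Bool) {δ : O}
    (hi : ∀ r s, r < s → s ≤ δ → (uSys P dec).run (u0 P y) r ≠ (uSys P dec).run (u0 P y) s)
    (κ : O) (hκ : IsPrincipal (· + ·) κ) (h1 : ω ≤ κ) (h2 : κ ≤ δ) :
    rst ((fSys P dec b0).run (m0 P dec b0 y) κ 0) = true := by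
  induction κ using WellFoundedLT.induction with
  | ind κ ih =>
  have hl : IsSuccLimit κ := isSuccLimit_of_isPrincipal_add (one_lt_omega0.trans_le h1) hκ
  have e1 : isL (grp .U ((fSys P dec b0).run (m0 P dec b0 y) κ 0)) = true := by
    have := isL_limit P dec (pj .U (m0 P dec b0 y)) hl
    rwa [← run_U P dec b0] at this
  rw [rst, e1, Bool.true_and]
  apply ((fSys P dec b0).cell_limit _ hl (.inr .ev, 0)).2
  intro s hs
  rcases lt_or_ge s ω with h3 | h3
  · obtain ⟨n, rfl⟩ := lt_omega0.1 h3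
    refine ⟨n + 1, hl.add_one_lt hs, (lt_add_one _).le, ?_⟩
    show (fSys P dec b0).run (m0 P dec b0 y) (n + 1) 0 (.inr .ev) = true
    rw [Sys.run_succ, step_ev, unseeded]
    simp
  · have hs0 : s ≠ 0 := (omega0_pos.trans_le h3).ne'
    have a1 : ω ^ log ω s ≤ s := opow_log_le_self ω hs0
    have a2 : s < ω ^ succ (log ω s) := lt_opow_succ_log_self one_lt_omega0 s
    have a3 : ω ≤ ω ^ log ω s := by
      have : 1 ≤ log ω s := (opow_le_iff_le_log one_lt_omega0 hs0).1 (by simpa using h3)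
      simpa using opow_le_opow_right omega0_pos this
    have a4 := ih _ (a1.trans_lt hs) (isPrincipal_add_omega0_opow _) a3 (a1.trans (hs.le.trans h2))
    rw [opow_succ] at a2
    obtain ⟨c, a5, a6⟩ := (lt_mul_iff_of_isSuccLimit isSuccLimit_omega0).1 a2
    obtain ⟨j, rfl⟩ := lt_omega0.1 a5
    have a7 := seg_mul P dec b0 (m0 P dec b0 y) rfl _ (one_lt_omega0.trans_le a3)
      (fun r hr => hi r _ hr (a1.trans (hs.le.trans h2))) a4 j
    refine ⟨ω ^ log ω s * (j + 1 : ℕ) + 1, hl.add_one_lt (hκ.mul_natCast_lt (a1.trans_lt hs) _),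
      a6.le.trans (le_trans (by gcongr; omega) (lt_add_one _).le), ?_⟩
    rw [Sys.run_succ]
    exact a7.2.2.2.2.trans (decide_eq_true rfl)

theorem cnt_bad (y : ℕ → Bool) {δ : O} (hδ : IsPrincipal (· + ·) δ) (h1 : ω ≤ δ)
    (hi : ∀ r s, r < s → s ≤ δ → (uSys P dec).run (u0 P y) r ≠ (uSys P dec).run (u0 P y) s)
    (j : ℕ) {r : O} (h0 : 0 < r) (hr : r ≤ δ) :
    (fSys P dec b0).run (m0 P dec b0 y) (δ * (j + 1 : ℕ) + r) 0 (.inr .cnt) = decide (0 < j) := by
  have a4 := reset_principal P dec b0 y hi δ hδ h1 le_rfl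
  have a7 := seg_mul P dec b0 (m0 P dec b0 y) rfl _ (one_lt_omega0.trans_le h1)
    (fun r hr => hi r _ hr le_rfl) a4 j
  rw [Sys.run_add]
  exact (seg_run P dec b0 _ δ _ _ (fun r hr => hi r _ hr le_rfl) a7 r h0 hr).2.2.1

theorem f_alive (y : ℕ → Bool) (t : O) : (fSys P dec b0).Alive (m0 P dec b0 y) t := by
  intro s _ h
  rcases h with h | ⟨h, -⟩
  · rw [run_rej] at h
    simp [m0, fProg] at h
  · rw [run_mode] at h
    simp [m0, fProg] at h

theorem f_reject (y : ℕ → Bool) (t : O)
    (h : (fSys P dec b0).run (m0 P dec b0 y) t 0 (.inr .cnt) ≠ b0) :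
    (fSys P dec b0).PRes (m0 P dec b0 y) t false := by
  refine ⟨f_alive P dec b0 y t, ?_⟩
  generalize (fSys P dec b0).run (m0 P dec b0 y) t = m at h
  have h1 : (fSys P dec b0).ovr m 0 (.inr .rej) = true := by simp [mSys, fProg, h]
  have := (fSys P dec b0).res_halt (a := (fSys P dec b0).ovr m) (Or.inl h1)
  have e : (fSys P dec b0).out ((fSys P dec b0).ovr m) = false := by
    show (!(fSys P dec b0).ovr m 0 (.inr .rej) && _) = false
    rw [h1]; rfl
  rwa [e] at this

theorem f_pass (y : ℕ → Bool) (t : O) {b : Bool}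
    (h : (fSys P dec b0).run (m0 P dec b0 y) t 0 (.inr .cnt) = b0)
    (hb : (hatSys P).Res ((hatSys P).ovr ((hatSys P).run (P.init y, false) t)) b) :
    (fSys P dec b0).PRes (m0 P dec b0 y) t b := by
  refine ⟨f_alive P dec b0 y t, ?_⟩
  have h1 := RU_res P dec (RU_ovr P dec (RU_run P dec (RU_ini P y) t)) hb
  have h2 : (uSys P dec).run (u0 P y) t = pj .U ((fSys P dec b0).run (m0 P dec b0 y) t) :=
    (run_U P dec b0 (m0 P dec b0 y) t).symm
  have h3 : (fSys P dec b0).run (m0 P dec b0 y) t 0 (.inr .rej) = false := by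
    rw [run_rej]; simp [m0, fProg]
  rw [h2] at h1
  generalize (fSys P dec b0).run (m0 P dec b0 y) t = m at h h1 h3
  have e1 : (uSys P dec).ovr (pj .U m) = pj .U ((fSys P dec b0).ovr m) := by
    funext n τ
    simp only [mSys, fProg, uProg, pj, grp, h, if_true]
    by_cases hn : n = 0
    · by_cases hτ : τ = .ov
      · simp [hn, hτ]
      · simp [hn, hτ, grp]
    · simp [hn, grp]
  have e2 : (fSys P dec b0).ovr m 0 (.inr .rej) = false := by simp [mSys, fProg, h, h3]
  have e3 : (fSys P dec b0).ovr m 0 (.inr .mode) = true := by simp [mSys, fProg, h]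
  rw [e1] at h1
  generalize (fSys P dec b0).ovr m = m' at h1 e2 e3
  obtain ⟨s, a1, a2, a3⟩ := h1
  rw [← run_U P dec b0] at a1 a3
  refine ⟨s, Or.inr ⟨by rw [run_mode, e3], a1⟩, ?_, ?_⟩
  · rintro r hr (h | ⟨-, h⟩)
    · rw [run_rej, e2] at h
      simp at h
    · apply a2 r hr
      rw [← run_U P dec b0]
      exact h
  · show (!(fSys P dec b0).run m' s 0 (.inr .rej) && _) = b
    rw [run_rej, e2, ← a3]
    rfl

end Pool.Agent.MP_bf5815_lc
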