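import Pool.Agent.MP_bf5815_lc.Big

/-! The frozen version of a program and its simulation with time stamps. -/

namespace Pool.Agent.MP_bf5815_lc

open Ordinal Order
open scoped Classical

variable {Q : Type} (P : Prog Q)

noncomputable def hatSys : Sys (Config Q × Bool) (Option (Fin 3 × ℕ)) where
  cell x i := i.elim x.2 (fun j => x.1.tape j.1 j.2)
  step x := if x.2 = true ∨ x.1.state = P.halt then (x.1, true) else (P.step x.1, false)
  lim v := (⟨P.lim, 0, fun k n => v (some (k, n))⟩, v none)
  cell_lim v := by
    funext i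
    cases i <;> rfl
  halt x := x.2 = true
  out x := x.1.tape 2 0
  ovr x := ({ x.1 with state := P.spec }, x.2)

theorem hat_alive (c : Config Q) (t : O) (h : (rawSys P).Alive c t) :
    (hatSys P).run (c, false) t = ((rawSys P).run c t, false) := by
  induction t using Ordinal.limitRecOn with
  | zero => simp
  | add_one t ih =>
    rw [Sys.run_succ, Sys.run_succ, ih (fun s hs => h s (hs.trans (lt_add_one t)))]
    have : ¬ ((rawSys P).run c t).state = P.halt := h t (lt_add_one t)
    simp only [hatSys, this, Bool.false_eq_true, or_self, if_false]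
    rfl
  | limit l hl ih =>
    have ih' := fun s (hs : s < l) => ih s hs (fun r hr => h r (hr.trans hs))
    have h1 : (hatSys P).cell ((hatSys P).run (c, false) l) none = false :=
      (hatSys P).cell_limit_const _ hl none false hl.bot_lt (fun r _ hr => by rw [ih' r hr]; rfl)
    have h2 : ∀ j, (hatSys P).cell ((hatSys P).run (c, false) l) (some j) =
        (rawSys P).cell ((rawSys P).run c l) j := by
      intro j
      rw [Bool.eq_iff_iff, Sys.cell_limit _ _ hl, Sys.cell_limit _ _ hl]
      constructor <;> intro H s hs <;> obtain ⟨r, h1, h2, h3⟩ := H s hs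
      · exact ⟨r, h1, h2, by rw [ih' r h1] at h3; exact h3⟩
      · exact ⟨r, h1, h2, by rw [ih' r h1]; exact h3⟩
    rw [Sys.run_limit_eq _ _ hl, (rawSys P).run_limit_eq _ hl]
    show (_, _) = (_, _)
    rw [h1]
    simp only [h2]
    rfl

theorem hat_frozen (x : Config Q × Bool) (hx : x.2 = true) (t : O) :
    ((hatSys P).run x t).2 = true ∧ ((hatSys P).run x t).1.tape = x.1.tape := by
  induction t using Ordinal.limitRecOn with
  | zero => simp [hx]
  | add_one t ih =>
    rw [Sys.run_succ]
    simp [hatSys, ih.1] at ih ⊢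
    simp [ih.1, ih.2]
  | limit l hl ih =>
    constructor
    · exact (hatSys P).cell_limit_const _ hl none true hl.bot_lt (fun r _ hr => (ih r hr).1)
    · funext k n
      exact (hatSys P).cell_limit_const _ hl (some (k, n)) _ hl.bot_lt
        (fun r _ hr => congrFun (congrFun (ih r hr).2 k) n)

theorem hat_halt_step {c : Config Q} {t : O} (h1 : (rawSys P).halt ((rawSys P).run c t))
    (h2 : (rawSys P).Alive c t) :
    (hatSys P).run (c, false) (t + 1) = ((rawSys P).run c t, true) := by
  rw [Sys.run_succ, hat_alive P c t h2]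
  have : ((rawSys P).run c t).state = P.halt := h1
  simp [hatSys, this]

theorem hat_res {c : Config Q} {b : Bool} (h : (rawSys P).Res c b) :
    (hatSys P).Res (c, false) b := by
  obtain ⟨t, h1, h2, h3⟩ := h
  refine ⟨t + 1, by rw [hat_halt_step P h1 h2]; rfl, ?_, by rw [hat_halt_step P h1 h2]; exact h3⟩
  intro s hs
  rw [hat_alive P c s (fun r hr => h2 r (hr.trans_le (lt_add_one_iff.1 hs)))]
  simp [hatSys]

theorem hat_source {α t : O} {y : ℕ → Bool} (h : P.HaltsAt α y t) :
    (hatSys P).Res ((hatSys P).ovr ((hatSys P).run (P.init y, false) α))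
      ((P.run α y t).tape 2 0) := by
  rcases pres_of_halts P h with ⟨h1, h2, h3, h4⟩ | ⟨h1, h2⟩
  · obtain ⟨d, rfl⟩ := exists_add_of_le (add_one_le_iff.2 h1)
    rw [Sys.run_add, hat_halt_step P h2 h3, ← h4]
    obtain ⟨h5, h6⟩ := hat_frozen P ((rawSys P).run (P.init y) t, true) rfl d
    have := (hatSys P).res_halt (a := (hatSys P).ovr ((hatSys P).run
      ((rawSys P).run (P.init y) t, true) d)) h5
    have e : (hatSys P).out ((hatSys P).ovr ((hatSys P).run
      ((rawSys P).run (P.init y) t, true) d)) = (rawSys P).out ((rawSys P).run (P.init y) t) :=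
      congrFun (congrFun h6 2) 0
    rwa [e] at this
  · rw [hat_alive P _ _ h1]
    exact hat_res P h2

inductive TU (Q : Type)
  | tape (k : Fin 3)
  | hd
  | st (q : Q)
  | e0
  | e1
  | halted
  | ov
  | H

instance [Finite Q] : Finite (TU Q) := Finite.of_equiv _ (proxy_equiv% (TU Q))

inductive TB
  | tape (k : Fin 3)
  | e0
  | e1
  | halted
  deriving Fintype

def TB.tr : TB → TU Q
  | .tape k => .tape k
  | .e0 => .e0
  | .e1 => .e1
  | .halted => .halted

def isL (c : TU Q → Bool) : Bool := c .e0 && c .e1

noncomputable def effSt (c : TU Q → Bool) : Q :=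
  if c .ov = true then P.spec else if isL c = true then P.lim else
    if h : ∃ q, c (.st q) = true then h.choose else P.start

noncomputable def frz (c : TU Q → Bool) : Bool := c .halted || decide (effSt P c = P.halt)

def effHd (c0 c : TU Q → Bool) (z : Bool) : Bool := if isL c0 = true then z else c .hd

noncomputable def utr (a : Fin 3 → Bool) (c0 : TU Q → Bool) : Q × (Fin 3 → Bool) × Bool :=
  P.trans (effSt P c0) (fun k => if isL c0 = true then c0 (.tape k) else a k)

noncomputable def nb (a : Fin 3 → Bool) (c0 c : TU Q → Bool) (z : Bool) : TB → Bool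
  | .tape k => if frz P c0 = false ∧ effHd c0 c z = true then (utr P a c0).2.1 k else c (.tape k)
  | .e0 => c .e1
  | .e1 => !c .e1
  | .halted => frz P c0

variable {M : ℕ} (dec : Fin (M + 1) → TB × TU Q)

noncomputable def uUpd (a : Fin 3 → Bool) (l : Loc (TU Q) M) : TU Q → Bool
  | .tape k => nb P a l.c0 l.cur l.u0 (.tape k)
  | .e0 => nb P a l.c0 l.cur l.u0 .e0
  | .e1 => nb P a l.c0 l.cur l.u0 .e1
  | .halted => nb P a l.c0 l.cur l.u0 .halted
  | .hd => if frz P l.c0 = true then effHd l.c0 l.cur l.u0 else
      if (utr P a l.c0).2.2 = true then (!l.u0 && effHd l.c0 l.prev l.p0)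
      else (effHd l.c0 l.next false || (l.u0 && effHd l.c0 l.cur l.u0))
  | .st q => decide (q = if frz P l.c0 = true then effSt P l.c0 else (utr P a l.c0).1)
  | .ov => false
  | .H => if nb P a l.c0 l.cz l.z0 (dec l.r).1 = l.cz (dec l.r).1.tr then l.cur .H
      else l.cw (dec l.r).2

noncomputable def uIni (z b : Bool) : TU Q → Bool
  | .tape k => if k = 0 then b else false
  | .hd => z
  | .st q => decide (q = P.start)
  | .e0 => true
  | _ => false

noncomputable def uProg : MProg (TU Q) (Fin 3) M where
  ini := uIni P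
  contrib c k := c .hd && c (.tape k)
  upd := uUpd P dec
  stop c := c .halted = true
  out c := c (.tape 2)
  jump c := Function.update c .ov true

noncomputable abbrev uSys := mSys (uProg P dec)

theorem u_tracked (u : ℕ → TU Q → Bool) (n : ℕ) (b : TB) :
    (uSys P dec).step u n b.tr = nb P ((uProg P dec).acc u) (u 0) (u n) (decide (n = 0)) b := by
  cases b <;> rfl

theorem u_ov (u : ℕ → TU Q → Bool) (n : ℕ) (t : O) (ht : 0 < t) :
    (uSys P dec).run u t n .ov = false := by
  induction t using Ordinal.limitRecOn with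
  | zero => exact absurd ht (lt_irrefl _)
  | add_one t ih => rw [Sys.run_succ]; rfl
  | limit l hl ih =>
    exact (uSys P dec).cell_limit_const u hl (.ov, n) false (by simpa using hl.add_one_lt hl.bot_lt)
      (fun r h1 h2 => ih r h2 (lt_of_lt_of_le zero_lt_one h1))

theorem u_e1_limit (u : ℕ → TU Q → Bool) (n : ℕ) {l : O} (hl : IsSuccLimit l) :
    (uSys P dec).run u l n .e1 = true := by
  apply ((uSys P dec).cell_limit u hl (.e1, n)).2
  intro s hs
  cases h : (uSys P dec).run u s n .e1 with
  | true => exact ⟨s, hs, le_rfl, h⟩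
  | false =>
    refine ⟨s + 1, hl.add_one_lt hs, (lt_add_one s).le, ?_⟩
    rw [Sys.run_succ]
    show (!(uSys P dec).run u s n .e1) = true
    rw [h]; rfl

theorem u_e0_limit (u : ℕ → TU Q → Bool) (n : ℕ) {l : O} (hl : IsSuccLimit l) :
    (uSys P dec).run u l n .e0 = true := by
  apply ((uSys P dec).cell_limit u hl (.e0, n)).2
  intro s hs
  obtain ⟨r, h1, h2, h3⟩ := ((uSys P dec).cell_limit u hl (.e1, n)).1 (u_e1_limit P dec u n hl) s hs
  refine ⟨r + 1, hl.add_one_lt h1, h2.trans (lt_add_one r).le, ?_⟩
  rw [Sys.run_succ]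
  exact h3

theorem isL_limit (u : ℕ → TU Q → Bool) {l : O} (hl : IsSuccLimit l) :
    isL ((uSys P dec).run u l 0) = true := by
  simp [isL, u_e0_limit P dec u 0 hl, u_e1_limit P dec u 0 hl]

theorem isL_step (u : ℕ → TU Q → Bool) : isL ((uSys P dec).step u 0) = false := by
  show (u 0 .e1 && !u 0 .e1) = false
  simp

def RU (u : ℕ → TU Q → Bool) (x : Config Q × Bool) : Prop :=
  (∀ k n, u n (.tape k) = x.1.tape k n) ∧ u 0 .halted = x.2 ∧ effSt P (u 0) = x.1.state ∧
    ∀ n, effHd (u 0) (u n) (decide (n = 0)) = decide (n = x.1.head)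

theorem RU_step {u : ℕ → TU Q → Bool} {x : Config Q × Bool} (h : RU P u x) :
    RU P ((uSys P dec).step u) ((hatSys P).step x) := by
  obtain ⟨⟨s, p, T⟩, hh⟩ := x
  obtain ⟨h1, h2, h3, h4⟩ := h
  simp only at h1 h2 h3 h4
  have e1 : utr P ((uProg P dec).acc u) (u 0) = P.trans s (fun k => T k p) := by
    rw [utr, h3]
    congr 1
    funext k
    by_cases hL : isL (u 0) = true
    · have := h4 0
      simp only [effHd, hL, if_true, decide_true] at this
      have hp : 0 = p := by simpa using this
      rw [if_pos hL, h1, hp]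
    · rw [if_neg hL, Bool.eq_iff_iff]
      simp only [effHd, hL] at h4
      simp only [MProg.acc, uProg, decide_eq_true_eq, Bool.and_eq_true]
      constructor
      · rintro ⟨n, h5, h6⟩
        have := h4 n
        simp only [Bool.false_eq_true, if_false, h5] at this
        have hp : n = p := by simpa using this
        rw [← hp, ← h1, h6]
      · intro h5
        have := h4 p
        simp only [Bool.false_eq_true, if_false, decide_true] at this
        exact ⟨p, this, by rw [h1, h5]⟩
  have e2 : frz P (u 0) = decide (hh = true ∨ s = P.halt) := by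
    rw [frz, h2, h3]
    cases hh <;> simp
  have e3 : ∀ q, effSt P ((uSys P dec).step u 0) = q ↔
      q = if frz P (u 0) = true then s else (P.trans s (fun k => T k p)).1 := by
    have : effSt P ((uSys P dec).step u 0) =
        if frz P (u 0) = true then s else (P.trans s (fun k => T k p)).1 := by
      rw [effSt, isL_step]
      have e4 : ∀ q, (uSys P dec).step u 0 (.st q) = decide
          (q = if frz P (u 0) = true then s else (P.trans s (fun k => T k p)).1) := by
        intro q
        rw [← e1, ← h3]
        rfl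
      have e5 : ∃ q, (uSys P dec).step u 0 (.st q) = true := ⟨_, by rw [e4, decide_eq_true rfl]⟩
      have e6 : (uSys P dec).step u 0 .ov = false := rfl
      rw [e6]
      simp only [Bool.false_eq_true, if_false, dif_pos e5]
      have := e5.choose_spec
      rw [e4] at this
      simpa using this
    intro q
    rw [this, eq_comm]
  have e4 : ∀ n, effHd ((uSys P dec).step u 0) ((uSys P dec).step u n) (decide (n = 0)) =
      if frz P (u 0) = true then decide (n = p) else
      if (P.trans s (fun k => T k p)).2.2 = true then (!decide (n = 0) && decide (n - 1 = p))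
      else (decide (n + 1 = p) || (decide (n = 0) && decide (n = p))) := by
    intro n
    rw [effHd, isL_step, ← e1, ← h4 n, ← h4 (n - 1), ← h4 (n + 1)]
    rfl
  have e5 : ∀ k n, (uSys P dec).step u n (.tape k) = if frz P (u 0) = false ∧ n = p then
      (P.trans s (fun k => T k p)).2.1 k else T k n := by
    intro k n
    have := u_tracked P dec u n (.tape k)
    simp only [TB.tr, nb, e1, h4, h1, decide_eq_true_eq] at this
    exact this
  have e6 : (uSys P dec).step u 0 .halted = frz P (u 0) := rfl
  by_cases hf : hh = true ∨ s = P.halt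
  · have e7 : (hatSys P).step (⟨s, p, T⟩, hh) = (⟨s, p, T⟩, true) := by simp [hatSys, hf]
    rw [decide_eq_true hf] at e2
    rw [e7]
    refine ⟨fun k n => by rw [e5]; simp [e2], by rw [e6, e2], by rw [e3]; simp [e2],
      fun n => by rw [e4]; simp [e2]⟩
  · have e7 : (hatSys P).step (⟨s, p, T⟩, hh) = (P.step ⟨s, p, T⟩, false) := by
      simp only [hatSys]; rw [if_neg hf]
    rw [decide_eq_false hf] at e2
    rw [e7]
    refine ⟨fun k n => by rw [e5]; simp [e2, Prog.step], by rw [e6, e2],
      by rw [e3]; simp [e2, Prog.step], fun n => ?_⟩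
    rw [e4]
    simp only [e2, Prog.step, Bool.false_eq_true, if_false]
    split_ifs
    · rw [Bool.eq_iff_iff]; simp; omega
    · rw [Bool.eq_iff_iff]; simp; omega

theorem RU_run {u : ℕ → TU Q → Bool} {x : Config Q × Bool} (h : RU P u x) (t : O) :
    RU P ((uSys P dec).run u t) ((hatSys P).run x t) := by
  induction t using Ordinal.limitRecOn with
  | zero => simpa using h
  | add_one t ih => rw [Sys.run_succ, Sys.run_succ]; exact RU_step P dec ih
  | limit l hl ih =>
    have e : ((hatSys P).run x l).1.state = P.lim ∧ ((hatSys P).run x l).1.head = 0 := by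
      rw [Sys.run_limit_eq _ _ hl]
      exact ⟨rfl, rfl⟩
    refine ⟨fun k n => ?_, ?_, ?_, fun n => ?_⟩
    · show (uSys P dec).cell ((uSys P dec).run u l) (.tape k, n) =
        (hatSys P).cell ((hatSys P).run x l) (some (k, n))
      rw [Bool.eq_iff_iff, Sys.cell_limit _ _ hl, Sys.cell_limit _ _ hl]
      constructor <;> intro H s hs <;> obtain ⟨r, h1, h2, h3⟩ := H s hs
      · exact ⟨r, h1, h2, ((ih r h1).1 k n).symm.trans h3⟩
      · exact ⟨r, h1, h2, ((ih r h1).1 k n).trans h3⟩
    · show (uSys P dec).cell ((uSys P dec).run u l) (.halted, 0) =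
        (hatSys P).cell ((hatSys P).run x l) none
      rw [Bool.eq_iff_iff, Sys.cell_limit _ _ hl, Sys.cell_limit _ _ hl]
      constructor <;> intro H s hs <;> obtain ⟨r, h1, h2, h3⟩ := H s hs
      · exact ⟨r, h1, h2, ((ih r h1).2.1).symm.trans h3⟩
      · exact ⟨r, h1, h2, ((ih r h1).2.1).trans h3⟩
    · rw [effSt, u_ov P dec u 0 l hl.bot_lt, isL_limit P dec u hl, e.1]
      simp
    · rw [effHd, isL_limit P dec u hl, e.2]
      simp

theorem RU_ini (y : ℕ → Bool) :
    RU P (fun n => uIni P (decide (n = 0)) (y n)) (P.init y, false) := by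
  refine ⟨fun k n => rfl, rfl, ?_, fun n => by simp [effHd, isL, uIni, Prog.init]⟩
  have e5 : ∃ q, uIni P (decide (0 = 0)) (y 0) (.st q) = true := ⟨P.start, by simp [uIni]⟩
  simp only [effSt, isL, dif_pos e5]
  simp [uIni, Prog.init]

theorem RU_ovr {u : ℕ → TU Q → Bool} {x : Config Q × Bool} (h : RU P u x) :
    RU P ((uSys P dec).ovr u) ((hatSys P).ovr x) := by
  obtain ⟨h1, h2, h3, h4⟩ := h
  refine ⟨fun k n => ?_, ?_, ?_, fun n => ?_⟩
  · rw [show ((hatSys P).ovr x).1.tape k n = x.1.tape k n from rfl, ← h1]
    simp only [mSys, uProg]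
    split_ifs with h
    · simp [h]
    · rfl
  · rw [show ((hatSys P).ovr x).2 = x.2 from rfl, ← h2]
    simp [mSys, uProg]
  · simp [mSys, uProg, effSt, hatSys]
  · rw [show ((hatSys P).ovr x).1.head = x.1.head from rfl, ← h4]
    simp only [mSys, uProg, effHd, isL]
    by_cases h : n = 0 <;> simp [h]

theorem RU_res {u : ℕ → TU Q → Bool} {x : Config Q × Bool} (h : RU P u x) {b : Bool}
    (hb : (hatSys P).Res x b) : (uSys P dec).Res u b := by
  obtain ⟨t, h1, h2, h3⟩ := hb
  refine ⟨t, (RU_run P dec h t).2.1.trans h1, fun s hs hc => h2 s hs ?_,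
    ((RU_run P dec h t).1 2 0).trans h3⟩
  exact (RU_run P dec h s).2.1.symm.trans hc

end Pool.Agent.MP_bf5815_lc
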