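import Pool.Agent.MP_bf5815_lc.Hat

/-! The first repetition of the time-stamped simulation is a strong loop. -/

namespace Pool.Agent.MP_bf5815_lc

open Ordinal Order
open scoped Classical

theorem Sys.last_change {X ι : Type} (S : Sys X ι) (a : X) (i : ι) (θ : O)
    (h : S.cell (S.run a θ) i = false) :
    (∀ t, t ≤ θ → S.cell (S.run a t) i = false) ∨
      ∃ t, t < θ ∧ S.cell (S.run a t) i = true ∧
        ∀ r, t < r → r ≤ θ → S.cell (S.run a r) i = false := by
  let A : Set O := {s | s ≤ θ ∧ ∀ r, s ≤ r → r ≤ θ → S.cell (S.run a r) i = false}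
  have hA : A.Nonempty := ⟨θ, le_rfl, fun r h1 h2 => by rwa [le_antisymm h2 h1]⟩
  obtain ⟨s, ⟨h1, h2⟩, h3⟩ := wellFounded_lt.has_min A hA
  rcases zero_or_succ_or_isSuccLimit s with rfl | ⟨t, rfl⟩ | hl
  · exact Or.inl fun t ht => h2 t zero_le ht
  · right
    refine ⟨t, (lt_succ t).trans_le h1, ?_, fun r h4 h5 => h2 r (succ_le_of_lt h4) h5⟩
    by_contra h4
    refine h3 t ⟨(lt_succ t).le.trans h1, fun r h5 h6 => ?_⟩ (lt_succ t)
    rcases h5.eq_or_lt with rfl | h5
    · simpa using h4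
    · exact h2 r (succ_le_of_lt h5) h6
  · obtain ⟨s', h4, h5⟩ := S.cell_limit_false a hl i (h2 s le_rfl h1)
    refine absurd h4 (h3 s' ⟨h4.le.trans h1, fun r h6 h7 => ?_⟩)
    rcases lt_or_ge r s with h | h
    · exact h5 r h6 h
    · exact h2 r h h7

variable {Q : Type} (P : Prog Q) {M : ℕ} (dec : Fin (M + 1) → TB × TU Q)

theorem exists_slot (hdec : Function.Surjective dec) (b : TB) (τ : TU Q) (z w : ℕ) :
    ∃ n, dec (res M n) = (b, τ) ∧ pr (n / (M + 1)) = (z, w) := by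
  obtain ⟨r, hr⟩ := hdec (b, τ)
  obtain ⟨j, hj⟩ := pr_surj z w
  refine ⟨r.1 + (M + 1) * j, ?_, ?_⟩
  · rw [← hr]
    congr 1
    apply Fin.ext
    simp only [res]
    rw [Nat.add_mul_mod_self_left, Nat.mod_eq_of_lt r.2]
  · rw [Nat.add_mul_div_left _ _ (Nat.succ_pos M), Nat.div_eq_of_lt r.2, zero_add, hj]

theorem step_H {b : TB} {τ : TU Q} {z w n : ℕ} (h1 : dec (res M n) = (b, τ))
    (h2 : pr (n / (M + 1)) = (z, w)) (u : ℕ → TU Q → Bool) :
    (uSys P dec).step u n .H =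
      if (uSys P dec).step u z b.tr = u z b.tr then u n .H else u w τ := by
  rw [u_tracked]
  simp only [mSys, uProg, uUpd, loc, h1, h2]
  congr

theorem H_const {b : TB} {τ : TU Q} {z w n : ℕ} (h1 : dec (res M n) = (b, τ))
    (h2 : pr (n / (M + 1)) = (z, w)) (u : ℕ → TU Q → Bool) (θ : O)
    (h : ∀ t, t ≤ θ → (uSys P dec).run u t z b.tr = false) :
    (uSys P dec).run u θ n .H = u n .H := by
  induction θ using Ordinal.limitRecOn with
  | zero => simp
  | add_one θ ih =>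
    have h3 := h _ le_rfl
    rw [Sys.run_succ] at h3 ⊢
    rw [step_H P dec h1 h2, h3, h θ (lt_add_one θ).le, if_pos rfl]
    exact ih (fun t ht => h t (ht.trans (lt_add_one θ).le))
  | limit l hl ih =>
    exact (uSys P dec).cell_limit_const u hl (.H, n) _ hl.bot_lt
      (fun r _ hr => ih r hr (fun t ht => h t (ht.trans hr.le)))

theorem H_snap {b : TB} {τ : TU Q} {z w n : ℕ} (h1 : dec (res M n) = (b, τ))
    (h2 : pr (n / (M + 1)) = (z, w)) (u : ℕ → TU Q → Bool) {t θ : O} (ht : t < θ)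
    (h3 : (uSys P dec).run u t z b.tr = true)
    (h : ∀ r, t < r → r ≤ θ → (uSys P dec).run u r z b.tr = false) :
    (uSys P dec).run u θ n .H = (uSys P dec).run u t w τ := by
  obtain ⟨d, rfl⟩ := exists_add_of_le (add_one_le_iff.2 ht)
  rw [Sys.run_add, H_const P dec h1 h2]
  · have h4 := h (t + 1) (lt_add_one t) le_self_add
    rw [Sys.run_succ] at h4 ⊢
    rw [step_H P dec h1 h2, h4, h3, if_neg (by simp)]
  · intro s hs
    rw [← Sys.run_add]
    exact h _ ((lt_add_one t).trans_le le_self_add) (by gcongr)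

theorem e_or (u : ℕ → TU Q → Bool) (hu : u 0 .e0 = true) (t : O) :
    (uSys P dec).run u t 0 .e0 = true ∨ (uSys P dec).run u t 0 .e1 = true := by
  rcases zero_or_succ_or_isSuccLimit t with rfl | ⟨t, rfl⟩ | hl
  · left; simpa using hu
  · rw [succ_eq_add_one, Sys.run_succ]
    show (uSys P dec).run u t 0 .e1 = true ∨ (!(uSys P dec).run u t 0 .e1) = true
    simp
  · exact Or.inl (u_e0_limit P dec u 0 hl)

theorem no_flash (hdec : Function.Surjective dec) (u : ℕ → TU Q → Bool) (hu : u 0 .e0 = true)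
    (hH : ∀ n, u n .H = false) {s0 s1 : O} (hs : s0 < s1)
    (he : (uSys P dec).run u s0 = (uSys P dec).run u s1)
    (hi : ∀ r1 r2, r1 < r2 → r2 < s1 → (uSys P dec).run u r1 ≠ (uSys P dec).run u r2)
    (b : TB) (z : ℕ) (h0 : (uSys P dec).run u s0 z b.tr = false) (t : O) (h1 : s0 ≤ t)
    (h2 : t ≤ s1) : (uSys P dec).run u t z b.tr = false := by
  by_contra h3
  rcases (uSys P dec).last_change u (b.tr, z) s1 (by rw [← he]; exact h0) with h4 | ⟨t1, h4, h5, h6⟩
  · exact h3 (h4 t h2)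
  have h7 : s0 ≤ t1 := by
    by_contra h7
    exact h3 (h6 t ((not_le.1 h7).trans_le h1) h2)
  have key : ∀ w τ, ∃ n, dec (res M n) = (b, τ) ∧ pr (n / (M + 1)) = (z, w) ∧
      (uSys P dec).run u s0 n .H = (uSys P dec).run u t1 w τ := by
    intro w τ
    obtain ⟨n, h8, h9⟩ := exists_slot dec hdec b τ z w
    exact ⟨n, h8, h9, by rw [he]; exact H_snap P dec h8 h9 u h4 h5 h6⟩
  rcases (uSys P dec).last_change u (b.tr, z) s0 h0 with h8 | ⟨t0, h8, h9, h10⟩
  · have : ∀ τ, (uSys P dec).run u t1 0 τ = false := by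
      intro τ
      obtain ⟨n, a1, a2, a3⟩ := key 0 τ
      rw [← a3, H_const P dec a1 a2 u s0 h8, hH]
    rcases e_or P dec u hu t1 with h | h <;> simp [this] at h
  · apply hi t0 t1 (h8.trans_le h7) h4
    funext w τ
    obtain ⟨n, a1, a2, a3⟩ := key w τ
    rw [← a3, H_snap P dec a1 a2 u h8 h9 h10]

theorem RU_unique {u : ℕ → TU Q → Bool} {x x' : Config Q × Bool} (h : RU P u x) (h' : RU P u x') :
    x = x' := by
  obtain ⟨⟨s, p, T⟩, hh⟩ := x
  obtain ⟨⟨s', p', T'⟩, hh'⟩ := x'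
  obtain ⟨h1, h2, h3, h4⟩ := h
  obtain ⟨h5, h6, h7, h8⟩ := h'
  simp only at h1 h2 h3 h4 h5 h6 h7 h8
  have e1 : T = T' := by funext k n; rw [← h1, h5]
  have e2 : p = p' := by
    have := (h4 p).symm.trans (h8 p)
    simpa using this
  rw [← h2, ← h6, ← h3, ← h7, e1, e2]

noncomputable abbrev u0 (y : ℕ → Bool) : ℕ → TU Q → Bool :=
  fun n => uIni P (decide (n = 0)) (y n)

theorem isL_imp_limit (y : ℕ → Bool) {s : O} (h : isL ((uSys P dec).run (u0 P y) s 0) = true) :
    IsSuccLimit s := by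
  rcases zero_or_succ_or_isSuccLimit s with rfl | ⟨t, rfl⟩ | hl
  · simp [isL, uIni] at h
  · rw [succ_eq_add_one, Sys.run_succ, isL_step] at h
    simp at h
  · exact hl

/-- If the time-stamped simulation repeats by time `κ`, the frozen program is in its final loop. -/
theorem good_loop (hdec : Function.Surjective dec) (y : ℕ → Bool) {δ : O}
    (h : ∃ s0 s1, s0 < s1 ∧ s1 ≤ δ ∧ (uSys P dec).run (u0 P y) s0 = (uSys P dec).run (u0 P y) s1) :
    ∃ ζ : O, ∀ κ ξ : O, IsPrincipal (· + ·) κ → δ ≤ κ → 0 < ξ →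
      (hatSys P).run (P.init y, false) (κ * ξ) = (hatSys P).run (P.init y, false) ζ := by
  obtain ⟨s0, s1, h1, h2, h3⟩ := h
  let A : Set O := {s | ∃ r, r < s ∧ (uSys P dec).run (u0 P y) r = (uSys P dec).run (u0 P y) s}
  obtain ⟨s, ⟨r, h4, h5⟩, h6⟩ := wellFounded_lt.has_min A ⟨s1, s0, h1, h3⟩
  have h7 : s ≤ δ := (not_lt.1 (h6 s1 ⟨s0, h1, h3⟩)).trans h2
  have nf := no_flash P dec hdec (u0 P y) rfl (fun n => rfl) h4 h5
    (fun r1 r2 a1 a2 a3 => h6 r2 ⟨r1, a1, a3⟩ a2)
  have h8 : (uSys P dec).run (u0 P y) r 0 .e1 = true := by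
    by_contra h8
    have := nf .e1 0 (by simpa [TB.tr] using h8) (r + 1) (lt_add_one r).le (add_one_le_iff.2 h4)
    rw [Sys.run_succ] at this
    replace this : (!(uSys P dec).run (u0 P y) r 0 .e1) = false := this
    simp [h8] at this
  have h9 : (uSys P dec).run (u0 P y) r 0 .e0 = true := by
    by_contra h9
    have := nf .e0 0 (by simpa [TB.tr] using h9) (r + 1) (lt_add_one r).le (add_one_le_iff.2 h4)
    rw [Sys.run_succ] at this
    replace this : (uSys P dec).run (u0 P y) r 0 .e1 = false := this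
    simp [h8] at this
  have hl : IsSuccLimit r := isL_imp_limit P dec y (by simp [isL, h8, h9])
  obtain ⟨p, rfl⟩ := exists_add_of_le h4.le
  have hR := RU_run P dec (RU_ini P y)
  refine ⟨r, fun κ ξ a1 a2 a3 => Sys.strong_loop_principal (p := p) (by simpa using h4) hl ?_ ?_
    a1 (h7.trans a2) a3⟩
  · exact RU_unique P (hR _) (h5 ▸ hR r)
  · intro i hi t ht
    have a4 : r + t ≤ r + p := by gcongr
    cases i with
    | none =>
      exact (hR _).2.1.symm.trans (nf .halted 0 ((hR _).2.1.trans hi) _ le_self_add a4)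
    | some j =>
      exact ((hR _).1 _ _).symm.trans
        (nf (.tape j.1) j.2 (((hR _).1 _ _).trans hi) _ le_self_add a4)

end Pool.Agent.MP_bf5815_lc
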