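import Pool.Agent.MP_bf5815_lc.Full

namespace Pool.Agent.MP_bf5815_lc

open Ordinal Order
open scoped Classical

theorem fSys_run_indep {Q : Type} (P : Prog Q) {M : ℕ} (dec : Fin (M + 1) → TB × TU Q)
    (b0 b1 : Bool) (y : ℕ → Bool) (t : O) :
    (fSys P dec b0).run (m0 P dec b0 y) t = (fSys P dec b1).run (m0 P dec b1 y) t := rfl

theorem main_thm (α : O) (x : ℕ → Bool) (h : Recognizable α x) :
    ∃ β : O, β < ω₁ ∧ Recognizable β x := by
  rcases lt_or_ge α ω₁ with hα | hα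
  · exact ⟨α, hα, h⟩
  obtain ⟨Q, hQ, P, hP⟩ := h
  obtain ⟨M, ⟨e⟩⟩ := Finite.exists_equiv_fin (TB × TU Q)
  let dec : Fin (M + 1) → TB × TU Q := fun r =>
    if h : r.1 < M then e.symm ⟨r.1, h⟩ else (.e0, .e0)
  have hdec : Function.Surjective dec := fun a => ⟨(e a).castSucc, by simp [dec]⟩
  obtain ⟨ζ, p, a1, a2, a3, a4, a5⟩ := (fSys P dec false).exists_countable_loop (m0 P dec false x)
  have hω : IsSuccLimit (ω₁ : O) := Cardinal.isSuccLimit_omega 1
  have hω0 : (ω₁ : O) ≠ 0 := hω.ne_bot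
  set β0 := α % ω₁ with hβ0
  have b1 : β0 < ω₁ := mod_lt _ hω0
  have b2 : 0 < α / ω₁ := by
    rw [pos_iff_ne_zero]
    intro h
    have := div_add_mod α ω₁
    rw [h, mul_zero, zero_add] at this
    exact absurd (this ▸ b1) (not_lt.2 hα)
  set γ := max (ζ + p) β0 with hγ
  set δ := ω ^ (γ + 1) with hδ
  have d1 : IsPrincipal (· + ·) δ := isPrincipal_add_omega0_opow _
  have d2 : γ < δ := (right_le_opow γ one_lt_omega0).trans_lt
    ((opow_lt_opow_iff_right one_lt_omega0).2 (lt_add_one γ))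
  have d3 : ω ≤ δ := by
    have := opow_le_opow_right omega0_pos (le_add_self : 1 ≤ γ + 1)
    rwa [opow_one] at this
  have d4 : δ < ω₁ := isPrincipal_opow_omega 1 omega0_lt_omega_one (hω.add_one_lt (max_lt a3 b1))
  obtain ⟨r0, r1, r2, r3⟩ : ∃ r0 : O, 0 < r0 ∧ r0 ≤ δ ∧ ∀ j : ℕ, ∃ k : O, 0 < k ∧
      δ * (j + 1 : ℕ) + r0 = δ * k + β0 := by
    rcases eq_or_ne β0 0 with h | h
    · refine ⟨δ, omega0_pos.trans_le d3, le_rfl, fun j => ⟨(j + 1 : ℕ) + 1, by simp, ?_⟩⟩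
      rw [h, add_zero, mul_add_one]
    · exact ⟨β0, pos_iff_ne_zero.2 h, ((le_max_right _ _).trans_lt d2).le,
        fun j => ⟨(j + 1 : ℕ), by simp, rfl⟩⟩
  set b0 := (fSys P dec false).run (m0 P dec false x) (ζ + β0) 0 (.inr .cnt) with hb0
  have c1 : ∀ j : ℕ, (fSys P dec b0).run (m0 P dec b0 x) (δ * (j + 1 : ℕ) + r0) 0 (.inr .cnt) =
      b0 := by
    intro j
    obtain ⟨k, h1, h2⟩ := r3 j
    rw [fSys_run_indep P dec b0 false, h2, Sys.run_add,
      Sys.strong_loop_principal a1 a2 a4 a5 d1 ((le_max_left _ _).trans d2.le) h1, ← Sys.run_add]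
  obtain ⟨j, hj⟩ : ∃ j : ℕ, decide (0 < j) ≠ b0 := by
    cases b0
    · exact ⟨1, by simp⟩
    · exact ⟨0, by simp⟩
  refine ⟨_, ?_, recog_of_big (fProg P dec b0) (δ * (j + 1 : ℕ) + r0) x fun y => ?_⟩
  · have hA := isPrincipal_add_omega 1
    have hM := isPrincipal_mul_omega 1
    have hn : ∀ n : ℕ, (n : O) < ω₁ := fun n => (natCast_lt_omega0 n).trans omega0_lt_omega_one
    exact hA omega0_lt_omega_one (hM (hM omega0_lt_omega_one (by exact_mod_cast hn 3))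
      (hA (hM d4 (hn _)) (r2.trans_lt d4)))
  · by_cases hc : (fSys P dec b0).run (m0 P dec b0 y) (δ * (j + 1 : ℕ) + r0) 0 (.inr .cnt) = b0
    · have hg : ∃ s0 s1, s0 < s1 ∧ s1 ≤ δ ∧
          (uSys P dec).run (u0 P y) s0 = (uSys P dec).run (u0 P y) s1 := by
        by_contra hg
        apply hj
        rw [← cnt_bad P dec b0 y d1 d3 (fun r s h1 h2 h3 => hg ⟨r, s, h1, h2, h3⟩) j r1 r2, hc]
      obtain ⟨ζ', hζ'⟩ := good_loop P dec hdec y hg
      obtain ⟨t, h1, h2⟩ := hP y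
      refine ⟨_, f_pass P dec b0 y _ hc ?_, h2⟩
      obtain ⟨k, h3, h4⟩ := r3 j
      have h5 := hat_source P h1
      rw [← div_add_mod α ω₁, Sys.run_add, hζ' _ _ (isPrincipal_add_omega 1) d4.le b2,
        div_add_mod] at h5
      rw [h4, Sys.run_add, hζ' _ _ d1 le_rfl h3]
      exact h5
    · refine ⟨false, f_reject P dec b0 y _ hc, ?_⟩
      simp only [Bool.false_eq_true, false_iff]
      rintro rfl
      exact hc (c1 j)

end Pool.Agent.MP_bf5815_lc
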