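import Pool.Agent.MP_bf5815_lc.Raw

/-! Model A: one head, wide columns, moves left / stay / right; simulated by the basic model. -/

namespace Pool.Agent.MP_bf5815_lc

open Ordinal Order
open scoped Classical

inductive Mv | L | S | R
  deriving Fintype

def Mv.app : Mv → ℕ → ℕ
  | .L, n => n - 1
  | .S, n => n
  | .R, n => n + 1

structure AProg (Q ι : Type) where
  start : Q
  lim : Q
  spec : Q
  distinct : [start, lim, spec].Nodup
  halt : Q → Prop
  outc : ι
  trans : Q → (ι → Bool) → Q × (ι → Bool) × Mv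

structure ACfg (Q ι : Type) where
  state : Q
  head : ℕ
  col : ℕ → ι → Bool

def aSys {Q ι : Type} (A : AProg Q ι) : Sys (ACfg Q ι) (ι × ℕ) where
  cell c i := c.col i.2 i.1
  step c :=
    let r := A.trans c.state (c.col c.head)
    ⟨r.1, r.2.2.app c.head, fun n => if n = c.head then r.2.1 else c.col n⟩
  lim v := ⟨A.lim, 0, fun n i => v (i, n)⟩
  cell_lim _ := rfl
  halt c := A.halt c.state
  out c := c.col 0 A.outc
  ovr c := { c with state := A.spec }

abbrev WT (K : ℕ) := Fin (K + 1) × Fin 3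

inductive RS (Q : Type) (K : ℕ)
  | rd (q : Q) (j : Fin (K + 1)) (buf : WT K → Bool)
  | bk (q : Q) (w : WT K → Bool) (m : Mv) (j : Fin (K + 1))
  | wr (q : Q) (w : WT K → Bool) (m : Mv) (j : Fin (K + 1))
  | lf (q : Q) (j : Fin (2 * (K + 1)))
  | halt

set_option synthInstance.maxSize 1024 in
instance {Q : Type} [Finite Q] (K : ℕ) : Finite (RS Q K) :=
  Finite.of_equiv _ (proxy_equiv% (RS Q K))

variable {Q : Type} {K : ℕ} (A : AProg Q (WT K))

def RS.goto (q : Q) (c : ℕ) : RS Q K :=
  if h : 0 < c ∧ c ≤ 2 * (K + 1) then .lf q ⟨c - 1, by omega⟩ else .rd q 0 (fun _ => false)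

def Mv.cnt (K : ℕ) : Mv → ℕ
  | .L => 2 * (K + 1)
  | .S => K + 1
  | .R => 0

noncomputable def rawTrans : RS Q K → (Fin 3 → Bool) → RS Q K × (Fin 3 → Bool) × Bool
  | .rd q j buf, s =>
    if A.halt q then (.halt, s, true) else
    let buf' : WT K → Bool := fun i => if i.1 = j then s i.2 else buf i
    if h : j.1 + 1 < K + 1 then (.rd q ⟨j.1 + 1, h⟩ buf', s, true)
    else (.bk (A.trans q buf').1 (A.trans q buf').2.1 (A.trans q buf').2.2 0, s, true)
  | .bk q w m j, s =>
    if h : j.1 + 1 < K + 1 then (.bk q w m ⟨j.1 + 1, h⟩, s, false) else (.wr q w m 0, s, false)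
  | .wr q w m j, _ =>
    if h : j.1 + 1 < K + 1 then (.wr q w m ⟨j.1 + 1, h⟩, fun k => w (j, k), true)
    else (RS.goto q (m.cnt K), fun k => w (j, k), true)
  | .lf q j, s => (RS.goto q j.1, s, false)
  | .halt, s => (.halt, s, true)

noncomputable def rawOf : Prog (RS Q K) where
  start := .rd A.start 0 (fun _ => false)
  lim := .rd A.lim 0 (fun _ => false)
  halt := .halt
  spec := .rd A.spec 0 (fun _ => false)
  distinct := by
    have := A.distinct
    simp only [List.nodup_cons, List.mem_cons, List.not_mem_nil, or_false, not_or,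
      List.nodup_nil, and_true, not_false_iff] at this ⊢
    simp [this]
  trans := rawTrans A

theorem same_tape (T : Fin 3 → ℕ → Bool) (h : ℕ) :
    (fun k n => if n = h then T k h else T k n) = T := by
  funext k n
  split_ifs with hn
  · rw [hn]
  · rfl

theorem blk_inj {n h : ℕ} {i j : Fin (K + 1)} :
    n * (K + 1) + i.1 = h * (K + 1) + j.1 ↔ n = h ∧ i = j := by
  constructor
  · intro H
    have h1 : (n * (K + 1) + i.1) / (K + 1) = n := by
      rw [add_comm, Nat.add_mul_div_right _ _ (Nat.succ_pos K), Nat.div_eq_of_lt i.2, zero_add]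
    have h2 : (h * (K + 1) + j.1) / (K + 1) = h := by
      rw [add_comm, Nat.add_mul_div_right _ _ (Nat.succ_pos K), Nat.div_eq_of_lt j.2, zero_add]
    have h3 : n = h := by rw [← h1, ← h2, H]
    subst h3
    exact ⟨rfl, Fin.ext (by omega)⟩
  · rintro ⟨rfl, rfl⟩
    rfl

section phases

variable (Pz : Config (RS Q K) → Prop) (T : Fin 3 → ℕ → Bool)

theorem rd_phase (hP : ∀ s h, s ≠ RS.halt → Pz ⟨s, h, T⟩) (q : Q) (hq : ¬ A.halt q) (p : ℕ)
    (c : WT K → Bool) (hc : ∀ i k, T k (p + i.1) = c (i, k)) :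
    ∀ (d : ℕ) (j : Fin (K + 1)) (buf : WT K → Bool), j.1 + d = K →
      (∀ i k, i < j → buf (i, k) = c (i, k)) →
      (rawSys (rawOf A)).Steps Pz ⟨.rd q j buf, p + j.1, T⟩
        ⟨.bk (A.trans q c).1 (A.trans q c).2.1 (A.trans q c).2.2 0, p + (K + 1), T⟩ := by
  intro d
  induction d with
  | zero =>
    intro j buf hj hb
    apply Sys.Steps.one (hP _ _ (by simp))
    have h1 : ¬ (j.1 + 1 < K + 1) := by omega
    have h2 : (fun i : WT K => if i.1 = j then T i.2 (p + j.1) else buf i) = c := by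
      funext ⟨i, k⟩
      by_cases h : i = j
      · subst h; simp [hc]
      · have : i < j := by
          have := i.2
          have h' : i.1 ≠ j.1 := fun h' => h (Fin.ext h')
          exact Fin.lt_def.2 (by omega)
        simp [h, hb i k this]
    simp only [rawSys, Prog.step, rawOf, rawTrans, hq, if_false, h1, dif_neg, not_false_iff, h2,
      if_true, same_tape]
    congr 1
    omega
  | succ d ih =>
    intro j buf hj hb
    have h1 : j.1 + 1 < K + 1 := by omega
    refine Sys.Steps.cons (hP _ _ (by simp)) ?_ (ih ⟨j.1 + 1, h1⟩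
      (fun i : WT K => if i.1 = j then T i.2 (p + j.1) else buf i) (by simp; omega) ?_)
    · simp only [rawSys, Prog.step, rawOf, rawTrans, hq, if_false, h1, dif_pos, if_true,
        same_tape]
      congr 1
    · intro i k hi
      by_cases h : i = j
      · subst h; simp [hc]
      · have : i < j := by
          have h' : i.1 ≠ j.1 := fun h' => h (Fin.ext h')
          have := Fin.lt_def.1 hi
          simp only at this
          exact Fin.lt_def.2 (by omega)
        simp [h, hb i k this]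

theorem bk_phase (hP : ∀ s h, s ≠ RS.halt → Pz ⟨s, h, T⟩) (q : Q) (w : WT K → Bool) (m : Mv)
    (p : ℕ) :
    ∀ (d : ℕ) (j : Fin (K + 1)), j.1 + d = K →
      (rawSys (rawOf A)).Steps Pz ⟨.bk q w m j, p + (d + 1), T⟩ ⟨.wr q w m 0, p, T⟩ := by
  intro d
  induction d with
  | zero =>
    intro j hj
    apply Sys.Steps.one (hP _ _ (by simp))
    have h1 : ¬ (j.1 + 1 < K + 1) := by omega
    simp [rawSys, Prog.step, rawOf, rawTrans, h1, same_tape]
  | succ d ih =>
    intro j hj
    have h1 : j.1 + 1 < K + 1 := by omega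
    refine Sys.Steps.cons (hP _ _ (by simp)) ?_ (ih ⟨j.1 + 1, h1⟩ (by simp; omega))
    simp only [rawSys, Prog.step, rawOf, rawTrans, h1, dif_pos, same_tape]
    congr 1

theorem lf_phase (hP : ∀ s h, s ≠ RS.halt → Pz ⟨s, h, T⟩) (q : Q) :
    ∀ (d : ℕ) (p : ℕ), d + 1 ≤ 2 * (K + 1) →
      (rawSys (rawOf A)).Steps Pz ⟨RS.goto q (d + 1), p, T⟩
        ⟨.rd q 0 (fun _ => false), p - (d + 1), T⟩ := by
  intro d
  induction d with
  | zero =>
    intro p hd
    have h1 : 0 < 0 + 1 ∧ 0 + 1 ≤ 2 * (K + 1) := by omega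
    rw [RS.goto, dif_pos h1]
    apply Sys.Steps.one (hP _ _ (by simp))
    simp [rawSys, Prog.step, rawOf, rawTrans, same_tape, RS.goto]
  | succ d ih =>
    intro p hd
    have h1 : 0 < d + 1 + 1 ∧ d + 1 + 1 ≤ 2 * (K + 1) := by omega
    rw [RS.goto, dif_pos h1]
    have h2 := ih (p - 1) (by omega)
    rw [show p - 1 - (d + 1) = p - (d + 1 + 1) by omega] at h2
    refine Sys.Steps.cons (hP _ _ (by simp)) ?_ h2
    simp [rawSys, Prog.step, rawOf, rawTrans, same_tape]

theorem wr_phase (col : ℕ → WT K → Bool) (h : ℕ) (q : Q) (w : WT K → Bool) (m : Mv)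
    (hP : ∀ s hd T' (j : ℕ), s ≠ RS.halt → (∀ n i k, T' k (n * (K + 1) + i.1) =
      if n = h ∧ i.1 < j then w (i, k) else col n (i, k)) → Pz ⟨s, hd, T'⟩) :
    ∀ (d : ℕ) (j : Fin (K + 1)) (T : Fin 3 → ℕ → Bool), j.1 + d = K →
      (∀ n i k, T k (n * (K + 1) + i.1) = if n = h ∧ i.1 < j.1 then w (i, k) else col n (i, k)) →
      ∃ T', (rawSys (rawOf A)).Steps Pz ⟨.wr q w m j, h * (K + 1) + j.1, T⟩
        ⟨RS.goto q (m.cnt K), h * (K + 1) + (K + 1), T'⟩ ∧
        ∀ n i k, T' k (n * (K + 1) + i.1) = if n = h then w (i, k) else col n (i, k) := by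
  have key : ∀ (j : Fin (K + 1)) (T : Fin 3 → ℕ → Bool),
      (∀ n i k, T k (n * (K + 1) + i.1) = if n = h ∧ i.1 < j.1 then w (i, k) else col n (i, k)) →
      ∀ n (i : Fin (K + 1)) k, (if n * (K + 1) + i.1 = h * (K + 1) + j.1 then w (j, k)
        else T k (n * (K + 1) + i.1)) =
        if n = h ∧ i.1 < j.1 + 1 then w (i, k) else col n (i, k) := by
    intro j T hT n i k
    rw [hT]
    simp only [blk_inj]
    by_cases h1 : n = h
    · by_cases h2 : i = j
      · subst h2; simp [h1]
      · have h' : i.1 ≠ j.1 := fun h' => h2 (Fin.ext h')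
        have h3 : (i.1 < j.1 + 1) ↔ (i.1 < j.1) := by omega
        simp [h1, h2, h3]
    · simp [h1]
  intro d
  induction d with
  | zero =>
    intro j T hj hT
    have h1 : ¬ (j.1 + 1 < K + 1) := by omega
    refine ⟨fun k n => if n = h * (K + 1) + j.1 then w (j, k) else T k n,
      Sys.Steps.one (hP _ _ _ _ (by simp) hT) ?_, ?_⟩
    · simp only [rawSys, Prog.step, rawOf, rawTrans, h1, dif_neg, not_false_iff, if_true]
      congr 1
      omega
    · intro n i k
      simp only
      rw [key j T hT]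
      have : i.1 < j.1 + 1 := by have := i.2; omega
      simp [this]
  | succ d ih =>
    intro j T hj hT
    have h1 : j.1 + 1 < K + 1 := by omega
    obtain ⟨T', h2, h3⟩ := ih ⟨j.1 + 1, h1⟩
      (fun k n => if n = h * (K + 1) + j.1 then w (j, k) else T k n) (by simp; omega)
      (fun n i k => key j T hT n i k)
    refine ⟨T', Sys.Steps.cons (hP _ _ _ _ (by simp) hT) ?_ h2, h3⟩
    simp only [rawSys, Prog.step, rawOf, rawTrans, h1, dif_pos, if_true]
    congr 1

end phases

def eA (K : ℕ) : WT K × ℕ → Fin 3 × ℕ := fun i => (i.1.2, i.2 * (K + 1) + i.1.1.1)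

def RA (c : Config (RS Q K)) (a : ACfg Q (WT K)) : Prop :=
  c.state = .rd a.state 0 (fun _ => false) ∧ c.head = a.head * (K + 1) ∧
    ∀ n i k, c.tape k (n * (K + 1) + i.1) = a.col n (i, k)

theorem simA (hout : A.outc = (0, 2)) :
    Sim (rawSys (rawOf A)) (aSys A) RA (eA K) ∅ (· < ω) := by
  apply Sim.ofSteps
  · rintro x2 x1 ⟨-, -, h⟩ ⟨⟨i, k⟩, n⟩
    exact h n i k
  · rintro ⟨s, hd, T⟩ ⟨q, h, col⟩ ⟨h1, h2, h3⟩ hq
    simp only at h1 h2 h3
    subst h1 h2
    replace hq : ¬ A.halt q := hq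
    set r := A.trans q (col h) with hr
    let Pz : Config (RS Q K) → Prop := fun z => ¬ (rawSys (rawOf A)).halt z ∧
      ∀ i, (rawSys (rawOf A)).cell z (eA K i) = true →
        (aSys A).cell ⟨q, h, col⟩ i = true ∨ (aSys A).cell ((aSys A).step ⟨q, h, col⟩) i = true
    have hP : ∀ s hd T' (j : ℕ), s ≠ RS.halt → (∀ n i k, T' k (n * (K + 1) + i.1) =
        if n = h ∧ i.1 < j then r.2.1 (i, k) else col n (i, k)) → Pz ⟨s, hd, T'⟩ := by
      intro s hd T' j hs hT
      refine ⟨hs, ?_⟩
      rintro ⟨⟨i, k⟩, n⟩ hc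
      replace hc : T' k (n * (K + 1) + i.1) = true := hc
      rw [hT] at hc
      show col n (i, k) = true ∨ (if n = h then r.2.1 else col n) (i, k) = true
      by_cases h4 : n = h ∧ i.1 < j
      · rw [if_pos h4] at hc
        rw [if_pos h4.1]
        exact Or.inr hc
      · rw [if_neg h4] at hc
        exact Or.inl hc
    have hP0 : ∀ s hd, s ≠ RS.halt → Pz ⟨s, hd, T⟩ :=
      fun s hd hs => hP s hd T 0 hs (by simpa using h3)
    have s1 := rd_phase A Pz T hP0 q hq (h * (K + 1)) (col h) (h3 h) K 0 (fun _ => false)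
      (by simp) (by simp)
    have s2 := bk_phase A Pz T hP0 r.1 r.2.1 r.2.2 (h * (K + 1)) K 0 (by simp)
    obtain ⟨T', s3, h4⟩ := wr_phase A Pz col h r.1 r.2.1 r.2.2 hP K 0 T (by simp)
      (by simpa using h3)
    have hP1 : ∀ s hd, s ≠ RS.halt → Pz ⟨s, hd, T'⟩ :=
      fun s hd hs => hP s hd T' (K + 1) hs (fun n i k => by rw [h4]; simp [i.2])
    have s4 := (s1.trans s2).trans s3
    refine ⟨⟨.rd r.1 0 (fun _ => false), r.2.2.app h * (K + 1), T'⟩, ⟨rfl, rfl, ?_⟩, ?_⟩
    · intro n i k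
      show T' k _ = (if n = h then r.2.1 else col n) (i, k)
      rw [h4]
      split_ifs <;> rfl
    · show (rawSys (rawOf A)).Steps Pz _ _
      cases hm : r.2.2 with
      | L =>
        rw [hm] at s4
        have s5 := lf_phase A Pz T' hP1 r.1 (2 * K + 1) (h * (K + 1) + (K + 1)) (by omega)
        have e1 : h * (K + 1) + (K + 1) - (2 * K + 1 + 1) = Mv.L.app h * (K + 1) := by
          simp only [Mv.app]
          rw [Nat.sub_mul]
          omega
        rw [e1] at s5
        exact s4.trans s5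
      | S =>
        rw [hm] at s4
        have s5 := lf_phase A Pz T' hP1 r.1 K (h * (K + 1) + (K + 1)) (by omega)
        have e1 : h * (K + 1) + (K + 1) - (K + 1) = Mv.S.app h * (K + 1) := by
          simp [Mv.app]
        rw [e1] at s5
        exact s4.trans s5
      | R =>
        rw [hm] at s4
        have e1 : h * (K + 1) + (K + 1) = Mv.R.app h * (K + 1) := by
          simp only [Mv.app]; ring
        rw [e1] at s4
        simpa [RS.goto, Mv.cnt] using s4
  · rintro ⟨s, hd, T⟩ ⟨q, h, col⟩ ⟨h1, h2, h3⟩ hq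
    simp only at h1 h2 h3
    subst h1 h2
    replace hq : A.halt q := hq
    apply Sys.res_step _ (by simp [rawSys, rawOf])
    have e1 : (rawSys (rawOf A)).step ⟨.rd q 0 (fun _ => false), h * (K + 1), T⟩ =
        ⟨.halt, h * (K + 1) + 1, T⟩ := by
      simp [rawSys, Prog.step, rawOf, rawTrans, hq, same_tape]
    rw [e1]
    have e2 := (rawSys (rawOf A)).res_halt (a := ⟨.halt, h * (K + 1) + 1, T⟩) rfl
    have e3 := h3 0 0 2
    simp only [zero_mul, Fin.val_zero, add_zero] at e3
    simpa [rawSys, aSys, hout, e3] using e2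
  · intro v
    exact ⟨rfl, by simp [rawSys, aSys], fun n i k => rfl⟩

theorem presA (hout : A.outc = (0, 2)) (y : ℕ → Bool) {β : O} (hβ : IsSuccLimit β) {b : Bool}
    (h : (aSys A).PRes ⟨A.start, 0, fun n i => if i.2 = 0 then y (n * (K + 1) + i.1.1)
      else false⟩ β b) : (rawSys (rawOf A)).PRes ((rawOf A).init y) β b := by
  refine (simA A hout).pres ?_ ?_ hβ h
  · exact ⟨rfl, by simp [Prog.init], fun n i k => rfl⟩
  · intro v
    exact ⟨rfl, by simp [rawSys, aSys], fun n i k => rfl⟩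

end Pool.Agent.MP_bf5815_lc
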