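import Pool.Agent.MP_bf5815_lc.ModelA

/-! Model B: several heads; simulated by model A. -/

namespace Pool.Agent.MP_bf5815_lc

open Ordinal Order
open scoped Classical

section relabel

variable {Q ι κ : Type} (A : AProg Q ι) (f : ι → κ)

noncomputable def AProg.relabel : AProg Q κ where
  start := A.start
  lim := A.lim
  spec := A.spec
  distinct := A.distinct
  halt := A.halt
  outc := f A.outc
  trans q c := ((A.trans q (c ∘ f)).1, Function.extend f (A.trans q (c ∘ f)).2.1 c,
    (A.trans q (c ∘ f)).2.2)

def RRel (c : ACfg Q κ) (a : ACfg Q ι) : Prop :=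
  c.state = a.state ∧ c.head = a.head ∧ ∀ n i, c.col n (f i) = a.col n i

theorem simRel (hf : Function.Injective f) :
    Sim (aSys (A.relabel f)) (aSys A) (RRel f) (fun i => (f i.1, i.2)) ∅ (· < ω) := by
  apply Sim.ofSteps
  · rintro x2 x1 ⟨-, -, h⟩ ⟨i, n⟩
    exact h n i
  · rintro ⟨s, hd, C⟩ ⟨q, h, col⟩ ⟨h1, h2, h3⟩ hq
    simp only at h1 h2 h3
    subst h1 h2
    have e1 : C hd ∘ f = col hd := funext (h3 hd)
    refine ⟨_, ?_, Sys.Steps.one ⟨hq, ?_⟩ rfl⟩
    · refine ⟨by simp [aSys, AProg.relabel, e1], by simp [aSys, AProg.relabel, e1], ?_⟩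
      intro n i
      simp only [aSys, AProg.relabel, e1]
      split_ifs
      · rw [hf.extend_apply]
      · exact h3 n i
    · rintro ⟨i, n⟩ hc
      left
      exact (h3 n i).symm.trans hc
  · rintro ⟨s, hd, C⟩ ⟨q, h, col⟩ ⟨h1, h2, h3⟩ hq
    simp only at h1 h2 h3
    subst h1 h2
    have := (aSys (A.relabel f)).res_halt (a := ⟨s, hd, C⟩) hq
    simpa [aSys, AProg.relabel, h3] using this
  · intro v
    exact ⟨rfl, rfl, fun n i => rfl⟩

theorem presRel (hf : Function.Injective f) (C : ℕ → κ → Bool) {β : O} (hβ : IsSuccLimit β)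
    {b : Bool} (h : (aSys A).PRes ⟨A.start, 0, fun n i => C n (f i)⟩ β b) :
    (aSys (A.relabel f)).PRes ⟨(A.relabel f).start, 0, C⟩ β b := by
  refine (simRel A f hf).pres ?_ ?_ hβ h
  · exact ⟨rfl, rfl, fun n i => rfl⟩
  · intro v
    exact ⟨rfl, rfl, fun n i => rfl⟩

end relabel

structure BProg (Q H ι : Type) where
  start : Q
  lim : Q
  spec : Q
  distinct : [start, lim, spec].Nodup
  halt : Q → Prop
  outc : ι
  sel : Q → H
  trans : Q → (ι → Bool) → Bool → Q × (ι → Bool) × Mv

structure BCfg (Q H ι : Type) where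
  state : Q
  head : H → ℕ
  col : ℕ → ι → Bool

noncomputable def bSys {Q H ι : Type} (B : BProg Q H ι) : Sys (BCfg Q H ι) (ι × ℕ) where
  cell c i := c.col i.2 i.1
  step c :=
    let p := c.head (B.sel c.state)
    let r := B.trans c.state (c.col p) (decide (p = 0))
    ⟨r.1, fun h => if h = B.sel c.state then r.2.2.app p else c.head h,
      fun n => if n = p then r.2.1 else c.col n⟩
  lim v := ⟨B.lim, fun _ => 0, fun n i => v (i, n)⟩
  cell_lim _ := rfl
  halt c := B.halt c.state
  out c := c.col 0 B.outc
  ovr c := { c with state := B.spec }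

inductive AS (Q H : Type)
  | init (q : Q)
  | seek (q : Q) (z : Bool)
  | place (q : Q) (h : H) (m : Mv)
  | back (q : Q)

instance {Q H : Type} [Finite Q] [Finite H] : Finite (AS Q H) :=
  Finite.of_equiv _ (proxy_equiv% (AS Q H))

variable {Q H ι : Type} (B : BProg Q H ι)

noncomputable def aTrans : AS Q H → (ι ⊕ Option H → Bool) → AS Q H × (ι ⊕ Option H → Bool) × Mv
  | .init q, c => (.seek q true, Sum.elim (c ∘ .inl) (fun _ => true), .S)
  | .seek q z, c =>
    if c (.inr (some (B.sel q))) = true then
      let r := B.trans q (c ∘ .inl) z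
      (.place r.1 (B.sel q) r.2.2, Sum.elim r.2.1 (fun o => o.elim z
        (fun h => if h = B.sel q ∧ r.2.2 = .R then false else c (.inr (some h)))), r.2.2)
    else (.seek q false, Sum.elim (c ∘ .inl) (fun o => o.elim z (fun h => c (.inr (some h)))), .R)
  | .place q h m, c => (.back q, Sum.elim (c ∘ .inl) (fun o => o.elim
      (if m = .R then false else c (.inr none))
      (fun h' => if h' = h then true else c (.inr (some h')))), .S)
  | .back q, c => if c (.inr none) = true then (.seek q true, c, .S) else (.back q, c, .L)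

def aHalt : AS Q H → Prop
  | .init q => B.halt q
  | .seek q z => z = true ∧ B.halt q
  | _ => False

noncomputable def aOf : AProg (AS Q H) (ι ⊕ Option H) where
  start := .init B.start
  lim := .init B.lim
  spec := .init B.spec
  distinct := by
    have := B.distinct
    simp only [List.nodup_cons, List.mem_cons, List.not_mem_nil, or_false, not_or,
      List.nodup_nil, and_true, not_false_iff] at this ⊢
    simp [this]
  halt := aHalt B
  outc := .inl B.outc
  trans := aTrans B

def Data (C : ℕ → ι ⊕ Option H → Bool) (col : ℕ → ι → Bool) : Prop :=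
  ∀ n i, C n (.inl i) = col n i

def Mark (C : ℕ → ι ⊕ Option H → Bool) (h : H) (p : ℕ) : Prop :=
  C p (.inr (some h)) = true ∧ ∀ n, n < p → C n (.inr (some h)) = false

def Bd (C : ℕ → ι ⊕ Option H → Bool) (p : ℕ) : Prop :=
  ∀ n, n < p → C n (.inr none) = decide (n = 0)

theorem same_col {κ : Type} (C : ℕ → κ → Bool) (h : ℕ) :
    (fun n => if n = h then C h else C n) = C := by
  funext n
  split_ifs with hn
  · rw [hn]
  · rfl

section phases

variable (Pz : ACfg (AS Q H) (ι ⊕ Option H) → Prop)

theorem back_phase (C : ℕ → ι ⊕ Option H → Bool) (q : Q) (hP : ∀ n, Pz ⟨.back q, n, C⟩) :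
    ∀ n, Bd C (n + 1) → (aSys (aOf B)).Steps Pz ⟨.back q, n, C⟩ ⟨.seek q true, 0, C⟩ := by
  intro n
  induction n with
  | zero =>
    intro hb
    apply Sys.Steps.one (hP _)
    have := hb 0 (by omega)
    simp [aSys, aOf, aTrans, this, same_col, Mv.app]
  | succ n ih =>
    intro hb
    refine Sys.Steps.cons (hP _) ?_ (ih (fun m hm => hb m (by omega)))
    have := hb (n + 1) (by omega)
    simp only [aSys, aOf, aTrans, this]
    simp [same_col, Mv.app]

theorem seek_phase (col : ℕ → ι → Bool) (hd : H → ℕ) (q : Q)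
    (hP : ∀ z n C, Data C col → Pz ⟨.seek q z, n, C⟩) :
    ∀ d n C, n + d = hd (B.sel q) → Data C col → (∀ h, Mark C h (hd h)) → Bd C n →
      let p := hd (B.sel q)
      let r := B.trans q (col p) (decide (p = 0))
      ∃ C', (aSys (aOf B)).Steps Pz ⟨.seek q (decide (n = 0)), n, C⟩
          ⟨.place r.1 (B.sel q) r.2.2, r.2.2.app p, C'⟩ ∧
        Data C' (fun n => if n = p then r.2.1 else col n) ∧
        (∀ h, h ≠ B.sel q → Mark C' h (hd h)) ∧
        (∀ n, n < r.2.2.app p → C' n (.inr (some (B.sel q))) = false) ∧ Bd C' (p + 1) := by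
  intro d
  induction d with
  | zero =>
    intro n C hn hD hM hb p r
    have hnp : n = p := by simpa using hn
    subst hnp
    have e1 : C p ∘ Sum.inl = col p := funext (hD p)
    refine ⟨fun n => if n = p then Sum.elim r.2.1 (fun o => o.elim (decide (p = 0))
        (fun h => if h = B.sel q ∧ r.2.2 = .R then false else C p (.inr (some h)))) else C n,
      Sys.Steps.one (hP _ _ _ hD) ?_, ?_, ?_, ?_, ?_⟩
    · have := (hM (B.sel q)).1
      simp only [aSys, aOf, aTrans]
      rw [if_pos this, e1]
    · intro n i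
      simp only
      split_ifs
      · rfl
      · exact hD n i
    · intro h hh
      refine ⟨?_, fun n hn => ?_⟩
      · simp only
        split_ifs with h1
        · simp only [Sum.elim_inr, Option.elim, hh, false_and, if_false]
          rw [← h1]
          exact (hM h).1
        · exact (hM h).1
      · simp only
        split_ifs with h1
        · simp only [Sum.elim_inr, Option.elim, hh, false_and, if_false]
          rw [← h1]
          exact (hM h).2 n hn
        · exact (hM h).2 n hn
    · intro n hn
      simp only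
      split_ifs with h1
      · subst h1
        have : r.2.2 = .R := by
          revert hn
          cases r.2.2 <;> simp [Mv.app]
        simp [this]
      · apply (hM (B.sel q)).2
        revert hn
        cases r.2.2 <;> simp only [Mv.app] <;> omega
    · intro n hn
      simp only
      split_ifs with h1
      · subst h1; rfl
      · exact hb n (by omega)
  | succ d ih =>
    intro n C hn hD hM hb p r
    have h1 : C n (.inr (some (B.sel q))) = false := (hM (B.sel q)).2 n (by omega)
    obtain ⟨C', h2, h3⟩ := ih (n + 1) (fun m => if m = n then Sum.elim (C n ∘ .inl)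
      (fun o => o.elim (decide (n = 0)) (fun h => C n (.inr (some h)))) else C m) (by omega)
      (by
        intro m i
        simp only
        split_ifs with h
        · subst h; exact hD m i
        · exact hD m i)
      (by
        intro h
        refine ⟨?_, fun m hm => ?_⟩
        · simp only
          split_ifs with h1
          · rw [← h1]; exact (hM h).1
          · exact (hM h).1
        · simp only
          split_ifs with h1
          · subst h1; exact (hM h).2 m hm
          · exact (hM h).2 m hm)
      (by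
        intro m hm
        simp only
        split_ifs with h1
        · subst h1; rfl
        · exact hb m (by omega))
    refine ⟨C', Sys.Steps.cons (hP _ _ _ hD) ?_ h2, h3⟩
    simp [aSys, aOf, aTrans, h1, Mv.app]

end phases

def RB (a : ACfg (AS Q H) (ι ⊕ Option H)) (b : BCfg Q H ι) : Prop :=
  a.head = 0 ∧ Data a.col b.col ∧ ((a.state = .init b.state ∧ ∀ h, b.head h = 0) ∨
    (a.state = .seek b.state true ∧ ∀ h, Mark a.col h (b.head h)))

theorem simB : Sim (aSys (aOf B)) (bSys B) RB (fun i => (.inl i.1, i.2)) ∅ (· < ω) := by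
  apply Sim.ofSteps
  · rintro x2 x1 ⟨-, h, -⟩ ⟨i, n⟩
    exact h n i
  · rintro ⟨s, p0, C⟩ ⟨q, hd, col⟩ ⟨h1, hD, h3⟩ hq
    simp only at h1 hD h3
    subst h1
    replace hq : ¬ B.halt q := hq
    set p := hd (B.sel q) with hp
    set r := B.trans q (col p) (decide (p = 0)) with hr
    let Pz : ACfg (AS Q H) (ι ⊕ Option H) → Prop := fun z => ¬ (aSys (aOf B)).halt z ∧
      ∀ i : ι × ℕ, (aSys (aOf B)).cell z (.inl i.1, i.2) = true →
        (bSys B).cell ⟨q, hd, col⟩ i = true ∨ (bSys B).cell ((bSys B).step ⟨q, hd, col⟩) i = true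
    have hP1 : ∀ s n C, ¬ aHalt B s → Data C col → Pz ⟨s, n, C⟩ := by
      intro s n C hs hC
      exact ⟨hs, fun i hi => Or.inl ((hC _ _).symm.trans hi)⟩
    have hP2 : ∀ s n C, ¬ aHalt B s → Data C (fun n => if n = p then r.2.1 else col n) →
        Pz ⟨s, n, C⟩ := by
      intro s n C hs hC
      exact ⟨hs, fun i hi => Or.inr ((hC _ _).symm.trans hi)⟩
    have main : ∀ C, Data C col → (∀ h, Mark C h (hd h)) → ∃ y, RB y ((bSys B).step ⟨q, hd, col⟩) ∧
        (aSys (aOf B)).Steps Pz ⟨.seek q true, 0, C⟩ y := by
      intro C hD hM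
      obtain ⟨C', s1, hD', hM1, hM2, hb⟩ := seek_phase B Pz col hd q
        (fun z n C hC => hP1 _ _ _ (by simp [aHalt, hq]) hC) p 0 C (by simp [hp]) hD hM
        (fun n hn => absurd hn (by simp))
      rw [← hp, ← hr] at s1 hD' hM2
      rw [← hp] at hb
      let C'' : ℕ → ι ⊕ Option H → Bool := fun n => if n = r.2.2.app p then
        Sum.elim (C' (r.2.2.app p) ∘ .inl) (fun o => o.elim
        (if r.2.2 = .R then false else C' (r.2.2.app p) (.inr none))
        (fun h' => if h' = B.sel q then true else C' (r.2.2.app p) (.inr (some h')))) else C' n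
      have hD'' : Data C'' (fun n => if n = p then r.2.1 else col n) := by
        intro n i
        rw [← hD' n i]
        simp only [C'']
        by_cases h : n = r.2.2.app p
        · rw [if_pos h, h]; rfl
        · rw [if_neg h]
      have hb'' : Bd C'' (r.2.2.app p + 1) := by
        intro n hn
        simp only [C'']
        by_cases h : n = r.2.2.app p
        · rw [if_pos h]
          by_cases h2 : r.2.2 = .R
          · have : n ≠ 0 := by rw [h, h2]; simp [Mv.app]
            simp [h2, this]
          · simp only [Sum.elim_inr, Option.elim, h2, if_false]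
            rw [← h]
            apply hb
            revert hn h2
            cases r.2.2 <;> simp only [Mv.app] <;> simp <;> omega
        · rw [if_neg h]
          apply hb
          revert hn h
          cases r.2.2 <;> simp only [Mv.app] <;> omega
      have s2 : (aSys (aOf B)).step ⟨.place r.1 (B.sel q) r.2.2, r.2.2.app p, C'⟩ =
          ⟨.back r.1, r.2.2.app p, C''⟩ := rfl
      have s3 := back_phase B Pz C'' r.1 (fun n => hP2 _ _ _ (by simp [aHalt]) hD'') _ hb''
      refine ⟨⟨.seek r.1 true, 0, C''⟩, ⟨rfl, hD'', Or.inr ⟨rfl, ?_⟩⟩,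
        s1.trans (Sys.Steps.cons (hP2 _ _ _ (by simp [aHalt]) hD') s2 s3)⟩
      intro h
      show Mark C'' h (if h = B.sel q then r.2.2.app p else hd h)
      by_cases hh : h = B.sel q
      · rw [if_pos hh, hh]
        refine ⟨by simp [C''], fun n hn => ?_⟩
        simp only [C'', hn.ne, if_false]
        exact hM2 n hn
      · rw [if_neg hh]
        have e2 : ∀ n, C'' n (.inr (some h)) = C' n (.inr (some h)) := by
          intro n
          simp only [C'']
          by_cases h1 : n = r.2.2.app p
          · rw [if_pos h1, h1]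
            simp [hh]
          · rw [if_neg h1]
        exact ⟨by rw [e2]; exact (hM1 h hh).1, fun n hn => by rw [e2]; exact (hM1 h hh).2 n hn⟩
    rcases h3 with ⟨h3, h4⟩ | ⟨h3, h4⟩
    · subst h3
      obtain ⟨y, h5, h6⟩ := main (fun n => if n = 0 then Sum.elim (C 0 ∘ .inl) (fun _ => true)
        else C n) (by
          intro n i
          simp only
          split_ifs with h
          · subst h; exact hD 0 i
          · exact hD n i)
        (fun h => ⟨by simp [h4], fun n hn => by simp [h4] at hn⟩)
      exact ⟨y, h5, Sys.Steps.cons (hP1 _ _ _ hq hD) rfl h6⟩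
    · subst h3
      exact main C hD h4
  · rintro ⟨s, p0, C⟩ ⟨q, hd, col⟩ ⟨h1, hD, h3⟩ hq
    simp only at h1 hD h3
    replace hq : B.halt q := hq
    have h5 : (aSys (aOf B)).halt ⟨s, p0, C⟩ := by
      rcases h3 with ⟨h3, h4⟩ | ⟨h3, h4⟩ <;> subst h3
      · exact hq
      · exact ⟨rfl, hq⟩
    have := (aSys (aOf B)).res_halt h5
    have e1 := hD 0 B.outc
    simpa [aSys, aOf, bSys, e1] using this
  · intro v
    exact ⟨rfl, fun n i => rfl, Or.inl ⟨rfl, fun _ => rfl⟩⟩

theorem presB (C : ℕ → ι ⊕ Option H → Bool) {β : O} (hβ : IsSuccLimit β)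
    {b : Bool} (h : (bSys B).PRes ⟨B.start, fun _ => 0, fun n i => C n (.inl i)⟩ β b) :
    (aSys (aOf B)).PRes ⟨(aOf B).start, 0, C⟩ β b := by
  refine (simB B).pres ?_ ?_ hβ h
  · exact ⟨rfl, fun n i => rfl, Or.inl ⟨rfl, fun _ => rfl⟩⟩
  · intro v
    exact ⟨rfl, fun n i => rfl, Or.inl ⟨rfl, fun _ => rfl⟩⟩

end Pool.Agent.MP_bf5815_lc
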