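import Pool.Agent.MP_bf5815_lc.Sys

/-! Finite runs, omega phases, lockstep simulation, strong loops. -/

namespace Pool.Agent.MP_bf5815_lc

open Ordinal Order
open scoped Classical

namespace Sys

variable {X ι : Type} (S : Sys X ι)

def Steps (P : X → Prop) (x y : X) : Prop :=
  ∃ L : ℕ, 0 < L ∧ S.step^[L] x = y ∧ ∀ s, s < L → P (S.step^[s] x)

variable {S}

theorem Steps.one {P : X → Prop} {x y : X} (h : P x) (hy : S.step x = y) : S.Steps P x y :=
  ⟨1, one_pos, hy, fun s hs => by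
    have : s = 0 := by omega
    subst this
    exact h⟩

theorem Steps.trans {P : X → Prop} {x y z : X} (h1 : S.Steps P x y) (h2 : S.Steps P y z) :
    S.Steps P x z := by
  obtain ⟨L1, a1, a2, a3⟩ := h1
  obtain ⟨L2, b1, b2, b3⟩ := h2
  refine ⟨L2 + L1, by omega, by rw [Function.iterate_add_apply, a2, b2], ?_⟩
  intro s hs
  rcases lt_or_ge s L1 with h | h
  · exact a3 s h
  · obtain ⟨d, rfl⟩ := Nat.exists_eq_add_of_le' h
    rw [Function.iterate_add_apply, a2]
    exact b3 d (by omega)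

theorem Steps.cons {P : X → Prop} {x y z : X} (h : P x) (hy : S.step x = y)
    (h2 : S.Steps P y z) : S.Steps P x z :=
  (Steps.one h hy).trans h2

theorem Steps.mono {P Q : X → Prop} {x y : X} (h : S.Steps P x y) (hPQ : ∀ z, P z → Q z) :
    S.Steps Q x y := by
  obtain ⟨L1, a1, a2, a3⟩ := h
  exact ⟨L1, a1, a2, fun s hs => hPQ _ (a3 s hs)⟩

theorem Steps.ord {P : X → Prop} {x y : X} (h : S.Steps P x y) :
    ∃ L : O, L < ω ∧ 0 < L ∧ S.run x L = y ∧ ∀ s, s < L → P (S.run x s) := by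
  obtain ⟨L1, a1, a2, a3⟩ := h
  refine ⟨L1, natCast_lt_omega0 _, by exact_mod_cast a1, by rw [run_nat, a2], ?_⟩
  intro s hs
  obtain ⟨n, rfl⟩ := lt_omega0.1 (hs.trans (natCast_lt_omega0 _))
  rw [run_nat]
  exact a3 n (by exact_mod_cast hs)

theorem Steps.res {x y : X} {b : Bool} (h : S.Steps (fun z => ¬ S.halt z) x y) (hy : S.Res y b) :
    S.Res x b := by
  obtain ⟨L, -, -, h3, h4⟩ := h.ord
  exact S.res_of_alive (s := L) h4 (by rwa [h3])

theorem omega_phase (I P : ℕ → X → Prop)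
    (hI : ∀ n x, I n x → ∃ y, S.Steps (P n) x y ∧ I (n + 1) y) {x : X} (h0 : I 0 x) :
    (∀ s, s < ω → ∃ n, P n (S.run x s)) ∧
      ∀ i b N, (∀ n, N ≤ n → ∀ z, P n z → S.cell z i = b) → S.cell (S.run x ω) i = b := by
  have h1 : ∀ d N x, I N x → ∃ n, N ≤ n ∧ P n (S.step^[d] x) := by
    intro d
    induction d using Nat.strong_induction_on with
    | _ d ih =>
      intro N x hx
      obtain ⟨y, ⟨L, a1, a2, a3⟩, hy⟩ := hI N x hx
      rcases lt_or_ge d L with h | h
      · exact ⟨N, le_rfl, a3 d h⟩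
      · obtain ⟨d', rfl⟩ := Nat.exists_eq_add_of_le' h
        obtain ⟨n, hn, hp⟩ := ih d' (by omega) (N + 1) y hy
        exact ⟨n, by omega, by rwa [Function.iterate_add_apply, a2]⟩
  have h2 : ∀ N, ∃ k : ℕ, I N (S.step^[k] x) := by
    intro N
    induction N with
    | zero => exact ⟨0, h0⟩
    | succ N ih =>
      obtain ⟨k, hk⟩ := ih
      obtain ⟨y, ⟨L, a1, a2, a3⟩, hy⟩ := hI N _ hk
      exact ⟨L + k, by rwa [Function.iterate_add_apply, a2]⟩
  constructor
  · intro s hs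
    obtain ⟨n, rfl⟩ := lt_omega0.1 hs
    obtain ⟨m, -, hm⟩ := h1 n 0 x h0
    exact ⟨m, by rwa [run_nat]⟩
  · intro i b N hN
    obtain ⟨k, hk⟩ := h2 N
    apply S.cell_limit_const x isSuccLimit_omega0 i b (natCast_lt_omega0 k)
    intro r hr hr'
    obtain ⟨n, rfl⟩ := lt_omega0.1 hr'
    have : k ≤ n := by exact_mod_cast hr
    obtain ⟨d, rfl⟩ := Nat.exists_eq_add_of_le' this
    obtain ⟨m, hm, hp⟩ := h1 d N _ hk
    rw [run_nat, Function.iterate_add_apply]
    exact hN m hm _ hp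

/-- A strong loop repeats forever. -/
theorem strong_loop {x : X} {p : O} (hp : 0 < p) (hx : x = S.lim (S.cell x))
    (h1 : S.run x p = x) (h2 : ∀ i, S.cell x i = false → ∀ s, s < p → S.cell (S.run x s) i = false)
    (η : O) : S.run x (p * η) = x := by
  induction η using Ordinal.limitRecOn with
  | zero => simp
  | add_one η ih => rw [mul_add_one, run_add, ih, h1]
  | limit l hl ih =>
    have hl2 := isSuccLimit_mul_right hp hl
    rw [S.run_limit_eq _ hl2]
    conv_rhs => rw [hx]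
    congr 1
    funext i
    cases hc : S.cell x i with
    | true =>
      rw [S.cell_limit _ hl2]
      intro s hs
      obtain ⟨c, hc1, hc2⟩ := (lt_mul_iff_of_isSuccLimit hl).1 hs
      exact ⟨p * c, by gcongr, hc2.le, by rw [ih c hc1, hc]⟩
    | false =>
      apply S.cell_limit_const x hl2 i false hl2.bot_lt
      intro r _ hr
      have h3 : r / p < l := (div_lt hp.ne').2 hr
      rw [← div_add_mod r p, run_add, ih _ h3]
      exact h2 i hc _ (mod_lt _ hp.ne')

/-- After a strong loop inside a principal ordinal, all its multiples give the same state. -/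
theorem strong_loop_principal {a : X} {ζ p : O} (hp : 0 < p) (hζ : IsSuccLimit ζ)
    (h1 : S.run a (ζ + p) = S.run a ζ)
    (h2 : ∀ i, S.cell (S.run a ζ) i = false → ∀ s, s < p → S.cell (S.run a (ζ + s)) i = false)
    {κ ξ : O} (hκ : IsPrincipal (· + ·) κ) (hle : ζ + p ≤ κ) (hξ : 0 < ξ) :
    S.run a (κ * ξ) = S.run a ζ := by
  have hζκ : ζ < κ := lt_of_lt_of_le (by simpa using hp) hle
  have hpκ : p ≤ κ := le_trans le_add_self hle
  have h3 : κ = p * (κ / p) := by
    have h4 := div_add_mod κ p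
    have h5 : κ % p < κ := (mod_lt _ hp.ne').trans_le hpκ
    by_contra h6
    have h7 : p * (κ / p) < κ := lt_of_le_of_ne (mul_div_le _ _) (Ne.symm h6)
    have := hκ h7 h5
    simp only at this
    rw [h4] at this
    exact lt_irrefl _ this
  have h4 : κ * ξ = ζ + p * (κ / p * ξ) := by
    rw [← mul_assoc, ← h3]
    obtain ⟨ξ', rfl⟩ := exists_add_of_le (one_le_iff_pos.2 hξ)
    rw [mul_add, mul_one, ← add_assoc, hκ.add_eq_right hζκ]
  rw [h4, run_add]
  apply strong_loop hp (S.run_limit_eq a hζ)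
  · rw [← run_add, h1]
  · intro i hi s hs
    rw [← run_add]
    exact h2 i hi s hs

/-- Every run with countably many cells has a countable strong loop. -/
theorem exists_countable_loop [Countable ι] (a : X) :
    ∃ ζ p : O, 0 < p ∧ IsSuccLimit ζ ∧ ζ + p < ω₁ ∧ S.run a (ζ + p) = S.run a ζ ∧
      ∀ i, S.cell (S.run a ζ) i = false → ∀ s, s < p → S.cell (S.run a (ζ + s)) i = false := by
  let Z : ι → Prop := fun i => ∃ s, s < ω₁ ∧ ∀ t, s ≤ t → t < ω₁ → S.cell (S.run a t) i = false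
  have hω : IsSuccLimit (ω₁ : O) := Cardinal.isSuccLimit_omega 1
  have h1 : ∀ i, ∃ s : O, s < ω₁ ∧ (Z i → ∀ t, s ≤ t → t < ω₁ → S.cell (S.run a t) i = false) := by
    intro i
    by_cases h : Z i
    · obtain ⟨s, h1, h2⟩ := h
      exact ⟨s, h1, fun _ => h2⟩
    · exact ⟨0, hω.bot_lt, fun h' => absurd h' h⟩
  choose z hz1 hz2 using h1
  have h2 : ∀ (s : O) i, ∃ t : O, s < ω₁ → t < ω₁ ∧ (¬ Z i → s ≤ t ∧
      S.cell (S.run a t) i = true) := by
    intro s i
    by_cases h : Z i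
    · exact ⟨0, fun _ => ⟨hω.bot_lt, fun h' => absurd h h'⟩⟩
    · by_cases hs : s < ω₁
      · have h' := h
        simp only [Z, not_exists, not_and, not_forall] at h'
        obtain ⟨t, h3, h4, h5⟩ := h' s hs
        exact ⟨t, fun _ => ⟨h4, fun _ => ⟨h3, by simpa using h5⟩⟩⟩
      · exact ⟨0, fun h => absurd h hs⟩
  choose w hw using h2
  let g : O → O := fun s => max s (⨆ i, w s i) + 1
  have hg1 : ∀ s, s < ω₁ → g s < ω₁ := fun s hs =>
    hω.add_one_lt (max_lt hs (iSup_lt_omega_one fun i => (hw s i hs).1))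
  have hg2 : ∀ s, s < g s := fun s => (le_max_left _ _).trans_lt (lt_add_one _)
  have hg3 : ∀ s i, w s i < g s := fun s i =>
    ((Ordinal.le_iSup (w s) i).trans (le_max_right _ _)).trans_lt (lt_add_one _)
  have key : ∀ s : O, s < ω₁ → (∀ i, z i ≤ s) → ∃ ζ, s < ζ ∧ ζ < ω₁ ∧ IsSuccLimit ζ ∧
      ∀ i, S.cell (S.run a ζ) i = decide (¬ Z i) := by
    intro s hs hzs
    have hit : ∀ n, g^[n] s < ω₁ := by
      intro n
      induction n with
      | zero => exact hs
      | succ n ih => rw [Function.iterate_succ_apply']; exact hg1 _ ih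
    have hlt : ∀ n, g^[n] s < ⨆ n, g^[n] s := by
      intro n
      refine lt_of_lt_of_le ?_ (Ordinal.le_iSup (fun n => g^[n] s) (n + 1))
      rw [Function.iterate_succ_apply']
      exact hg2 _
    have hlim : IsSuccLimit (⨆ n, g^[n] s) := by
      rw [Order.isSuccLimit_iff]
      refine ⟨fun h => ?_, isSuccPrelimit_of_succ_lt fun c hc => ?_⟩
      · exact absurd (hlt 0) (h.not_lt)
      · obtain ⟨n, hn⟩ := Ordinal.lt_iSup_iff.1 hc
        exact (succ_le_of_lt hn).trans_lt (hlt n)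
    have hsup : (⨆ n, g^[n] s) < ω₁ := iSup_lt_omega_one hit
    refine ⟨_, hlt 0, hsup, hlim, fun i => ?_⟩
    by_cases h : Z i
    · simp only [h, not_true, decide_false]
      apply S.cell_limit_const a hlim i false (hlt 0)
      intro r hr hr'
      exact hz2 i h r ((hzs i).trans hr) (hr'.trans hsup)
    · simp only [h, not_false_iff, decide_true]
      rw [S.cell_limit a hlim]
      intro c hc
      obtain ⟨n, hn⟩ := Ordinal.lt_iSup_iff.1 hc
      obtain ⟨-, h5⟩ := hw _ i (hit n)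
      refine ⟨w (g^[n] s) i, ?_, hn.le.trans (h5 h).1, (h5 h).2⟩
      refine (hg3 _ i).trans ?_
      have := hlt (n + 1)
      rwa [Function.iterate_succ_apply'] at this
  obtain ⟨ζ, h3, h4, h5, h6⟩ := key (⨆ i, z i) (iSup_lt_omega_one hz1) (Ordinal.le_iSup z)
  obtain ⟨ζ', h7, h8, h9, h10⟩ := key ζ h4 (fun i => (Ordinal.le_iSup z i).trans h3.le)
  obtain ⟨p, rfl⟩ := exists_add_of_le h7.le
  refine ⟨ζ, p, by simpa using h7, h5, h8, ?_, ?_⟩
  · rw [S.run_limit_eq a h9, S.run_limit_eq a h5]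
    congr 1
    funext i
    rw [h6, h10]
  · intro i hi s hs
    rw [h6] at hi
    have hZ : Z i := by simpa using hi
    refine hz2 i hZ _ (((Ordinal.le_iSup z i).trans h3.le).trans le_self_add) ?_
    exact lt_trans (by gcongr) h8

end Sys

theorem Sim.ofSteps {X1 ι1 X2 ι2 : Type} {S2 : Sys X2 ι2} {S1 : Sys X1 ι1} {R : X2 → X1 → Prop}
    {e : ι1 → ι2}
    (cel : ∀ x2 x1, R x2 x1 → ∀ i, S2.cell x2 (e i) = S1.cell x1 i)
    (blk : ∀ x2 x1, R x2 x1 → ¬ S1.halt x1 → ∃ y, R y (S1.step x1) ∧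
      S2.Steps (fun z => ¬ S2.halt z ∧ ∀ i, S2.cell z (e i) = true →
        S1.cell x1 i = true ∨ S1.cell (S1.step x1) i = true) x2 y)
    (hlt : ∀ x2 x1, R x2 x1 → S1.halt x1 → S2.Res x2 (S1.out x1))
    (lim : ∀ v, R (S2.lim v) (S1.lim (v ∘ e))) : Sim S2 S1 R e ∅ (· < ω) where
  dflt := ⟨1, one_lt_omega0, one_pos⟩
  cel := cel
  fl := fun _ _ _ j hj => absurd hj (by simp)
  blk := by
    intro x2 x1 h1 h2
    obtain ⟨y, h3, h4⟩ := blk x2 x1 h1 h2
    obtain ⟨L, h5, h6, h7, h8⟩ := h4.ord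
    exact ⟨L, h5, h6, by rwa [h7], fun s hs => (h8 s hs).1, fun i s hs => (h8 s hs).2 i⟩
  hlt := hlt
  lim := fun v _ => lim v

end Pool.Agent.MP_bf5815_lc
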