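import Pool.Agent.MP_bf5815_lc.Defs
import Pool.Agent.MP_bf5815_lc.Sys2

/-! The machines of the statement as systems. -/

namespace Pool.Agent.MP_bf5815_lc

open Ordinal Order
open scoped Classical

variable {Q : Type} (P : Prog Q)

def rawSys : Sys (Config Q) (Fin 3 × ℕ) where
  cell c i := c.tape i.1 i.2
  step := P.step
  lim v := ⟨P.lim, 0, fun k n => v (k, n)⟩
  cell_lim _ := rfl
  halt c := c.state = P.halt
  out c := c.tape 2 0
  ovr c := { c with state := P.spec }

theorem prun_zero (α : O) (y : ℕ → Bool) : P.run α y 0 = P.interrupt α 0 (P.init y) := by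
  simp [Prog.run]

theorem prun_succ (α : O) (y : ℕ → Bool) (t : O) :
    P.run α y (t + 1) = P.interrupt α (t + 1) (P.step (P.run α y t)) := by
  simp [Prog.run]

theorem prun_limit (α : O) (y : ℕ → Bool) {l : O} (hl : IsSuccLimit l) :
    P.run α y l = P.interrupt α l ((rawSys P).lim (fun i =>
      decide (∀ s, s < l → ∃ r, r < l ∧ s ≤ r ∧ (P.run α y r).tape i.1 i.2 = true))) := by
  unfold Prog.run
  rw [Ordinal.limitRecOn_limit _ _ _ _ hl]
  simp only [exists_prop, rawSys]

theorem prun_le (α : O) (y : ℕ → Bool) (t : O) (ht : t ≤ α) :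
    P.run α y t = P.interrupt α t ((rawSys P).run (P.init y) t) := by
  induction t using Ordinal.limitRecOn with
  | zero => rw [prun_zero, Sys.run_zero]
  | add_one t ih =>
    have h1 : t < α := (lt_add_one t).trans_le ht
    rw [prun_succ, ih h1.le, Sys.run_succ]
    simp [Prog.interrupt, h1.ne, rawSys]
  | limit l hl ih =>
    rw [prun_limit P α y hl, Sys.run_limit _ _ hl]
    congr 2
    funext i
    apply decide_eq_decide.2
    have : ∀ r, r < l → P.run α y r = (rawSys P).run (P.init y) r := by
      intro r hr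
      have h1 : r < α := hr.trans_le ht
      rw [ih r hr h1.le]
      simp [Prog.interrupt, h1.ne]
    constructor <;> intro H s hs <;> obtain ⟨r, h1, h2, h3⟩ := H s hs
    · exact ⟨r, h1, h2, by rw [← this r h1]; exact h3⟩
    · exact ⟨r, h1, h2, by rw [this r h1]; exact h3⟩

theorem prun_lt (α : O) (y : ℕ → Bool) (t : O) (ht : t < α) :
    P.run α y t = (rawSys P).run (P.init y) t := by
  rw [prun_le P α y t ht.le]
  simp [Prog.interrupt, ht.ne]

theorem prun_add (α : O) (y : ℕ → Bool) (t : O) :
    P.run α y (α + t) =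
      (rawSys P).run ((rawSys P).ovr ((rawSys P).run (P.init y) α)) t := by
  induction t using Ordinal.limitRecOn with
  | zero =>
    rw [add_zero, prun_le P α y α le_rfl, Sys.run_zero]
    simp [Prog.interrupt, rawSys]
  | add_one t ih =>
    have h1 : α + t + 1 ≠ α := by
      have : α < α + t + 1 := lt_of_le_of_lt le_self_add (lt_add_one _)
      exact this.ne'
    rw [← add_assoc, prun_succ, ih, Sys.run_succ]
    simp [Prog.interrupt, h1, rawSys]
  | limit l hl ih =>
    have h1 : α + l ≠ α := by simpa using hl.ne_bot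
    rw [prun_limit P α y (isSuccLimit_add α hl), Sys.run_limit _ _ hl]
    simp only [Prog.interrupt, h1, if_false]
    congr 1
    funext i
    apply decide_eq_decide.2
    constructor
    · intro H u hu
      obtain ⟨r, hr, hsr, hc⟩ := H (α + u) (by gcongr)
      have hsr' : α ≤ r := le_trans le_self_add hsr
      obtain ⟨r', rfl⟩ := exists_add_of_le hsr'
      have h1 : r' < l := by simpa using hr
      exact ⟨r', h1, by simpa using hsr, by rw [← ih r' h1]; exact hc⟩
    · intro H u hu
      obtain ⟨d, hd, hud⟩ := (lt_add_iff_of_isSuccLimit hl).1 hu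
      obtain ⟨r, hr, hdr, hc⟩ := H d hd
      exact ⟨α + r, by gcongr, hud.le.trans (by gcongr), by rw [ih r hr]; exact hc⟩

theorem halts_of_pres {β : O} {y : ℕ → Bool} {b : Bool}
    (h : (rawSys P).PRes (P.init y) β b) :
    ∃ t, P.HaltsAt β y t ∧ (P.run β y t).tape 2 0 = b := by
  obtain ⟨h1, t, h2, h3, h4⟩ := h
  refine ⟨β + t, ⟨by rw [prun_add]; exact h2, ?_⟩, by rw [prun_add]; exact h4⟩
  intro s hs
  rcases lt_or_ge s β with h | h
  · rw [prun_lt P β y s h]
    exact h1 s h
  · obtain ⟨r, rfl⟩ := exists_add_of_le h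
    rw [prun_add]
    exact h3 r (by simpa using hs)

theorem pres_of_halts {α t : O} {y : ℕ → Bool} (h : P.HaltsAt α y t) :
    (t < α ∧ (rawSys P).halt ((rawSys P).run (P.init y) t) ∧ (rawSys P).Alive (P.init y) t ∧
      (rawSys P).out ((rawSys P).run (P.init y) t) = (P.run α y t).tape 2 0) ∨
    (rawSys P).PRes (P.init y) α ((P.run α y t).tape 2 0) := by
  obtain ⟨h1, h2⟩ := h
  rcases lt_or_ge t α with h | h
  · left
    refine ⟨h, by rw [← prun_lt P α y t h]; exact h1, ?_, by rw [← prun_lt P α y t h]; rfl⟩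
    intro s hs
    rw [← prun_lt P α y s (hs.trans h)]
    exact h2 s hs
  · right
    obtain ⟨r, rfl⟩ := exists_add_of_le h
    refine ⟨?_, r, by rw [← prun_add]; exact h1, ?_, by rw [← prun_add]; rfl⟩
    · intro s hs
      rw [← prun_lt P α y s hs]
      exact h2 s (hs.trans_le le_self_add)
    · intro s hs
      rw [← prun_add]
      exact h2 _ (by gcongr)

end Pool.Agent.MP_bf5815_lc
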