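import Mathlib

/-! General infinite time systems, their runs, and simulation lemmas. -/

namespace Pool.Agent.MP_bf5815_lc

open Ordinal Order
open scoped Classical

abbrev O := Ordinal.{0}

structure Sys (X ι : Type) where
  cell : X → ι → Bool
  step : X → X
  lim : (ι → Bool) → X
  cell_lim : ∀ v, cell (lim v) = v
  halt : X → Prop
  out : X → Bool
  ovr : X → X

namespace Sys

variable {X ι : Type} (S : Sys X ι)

noncomputable def run (a : X) (t : O) : X :=
  Ordinal.limitRecOn (motive := fun _ => X) t a (fun _ x => S.step x)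
    (fun l _ f => S.lim (fun i =>
      decide (∀ s, s < l → ∃ r, ∃ h : r < l, s ≤ r ∧ S.cell (f r h) i = true)))

@[simp] theorem run_zero (a : X) : S.run a 0 = a := by simp [run]

theorem run_succ (a : X) (t : O) : S.run a (t + 1) = S.step (S.run a t) := by
  simp [run]

theorem run_one (a : X) : S.run a 1 = S.step a := by
  have := S.run_succ a 0
  simpa using this

theorem run_limit (a : X) {l : O} (hl : IsSuccLimit l) :
    S.run a l = S.lim (fun i =>
      decide (∀ s, s < l → ∃ r, r < l ∧ s ≤ r ∧ S.cell (S.run a r) i = true)) := by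
  unfold run
  rw [Ordinal.limitRecOn_limit _ _ _ _ hl]
  simp only [exists_prop]

theorem cell_limit (a : X) {l : O} (hl : IsSuccLimit l) (i : ι) :
    S.cell (S.run a l) i = true ↔
      ∀ s, s < l → ∃ r, r < l ∧ s ≤ r ∧ S.cell (S.run a r) i = true := by
  rw [S.run_limit a hl, S.cell_lim]
  simp

theorem run_limit_eq (a : X) {l : O} (hl : IsSuccLimit l) :
    S.run a l = S.lim (S.cell (S.run a l)) := by
  rw [S.run_limit a hl, S.cell_lim]

/-- eventually constant cells -/
theorem cell_limit_const (a : X) {l : O} (hl : IsSuccLimit l) (i : ι) (b : Bool) {s0 : O}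
    (hs : s0 < l) (h : ∀ r, s0 ≤ r → r < l → S.cell (S.run a r) i = b) :
    S.cell (S.run a l) i = b := by
  cases b with
  | true =>
    rw [S.cell_limit a hl]
    intro s hs'
    exact ⟨max s s0, max_lt hs' hs, le_max_left _ _, h _ (le_max_right _ _) (max_lt hs' hs)⟩
  | false =>
    rw [← Bool.not_eq_true, S.cell_limit a hl]
    intro H
    obtain ⟨r, hr, hsr, hc⟩ := H s0 hs
    rw [h r hsr hr] at hc
    exact absurd hc (by simp)

theorem cell_limit_false (a : X) {l : O} (hl : IsSuccLimit l) (i : ι)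
    (h : S.cell (S.run a l) i = false) :
    ∃ s, s < l ∧ ∀ r, s ≤ r → r < l → S.cell (S.run a r) i = false := by
  rw [← Bool.not_eq_true, S.cell_limit a hl] at h
  push Not at h
  obtain ⟨s, hs, H⟩ := h
  exact ⟨s, hs, fun r h1 h2 => by simpa using H r h2 h1⟩

theorem run_add (a : X) (s t : O) : S.run a (s + t) = S.run (S.run a s) t := by
  induction t using Ordinal.limitRecOn with
  | zero => simp
  | add_one t ih => rw [← add_assoc, run_succ, run_succ, ih]
  | limit l hl ih =>
    rw [S.run_limit a (isSuccLimit_add s hl), S.run_limit _ hl]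
    congr 1
    funext i
    apply decide_eq_decide.2
    constructor
    · intro H u hu
      obtain ⟨r, hr, hsr, hc⟩ := H (s + u) (by gcongr)
      have hsr' : s ≤ r := le_trans le_self_add hsr
      obtain ⟨r', rfl⟩ := exists_add_of_le hsr'
      have h1 : r' < l := by simpa using hr
      exact ⟨r', h1, by simpa using hsr, by rw [← ih r' h1]; exact hc⟩
    · intro H u hu
      obtain ⟨d, hd, hud⟩ := (lt_add_iff_of_isSuccLimit hl).1 hu
      obtain ⟨r, hr, hdr, hc⟩ := H d hd
      exact ⟨s + r, by gcongr, hud.le.trans (by gcongr), by rw [ih r hr]; exact hc⟩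

theorem run_nat (a : X) (n : ℕ) : S.run a (n : O) = S.step^[n] a := by
  induction n with
  | zero => simp
  | succ n ih => rw [Nat.cast_succ, run_succ, ih, Function.iterate_succ_apply']

def Alive (a : X) (t : O) : Prop := ∀ s, s < t → ¬ S.halt (S.run a s)

def Res (a : X) (b : Bool) : Prop :=
  ∃ t, S.halt (S.run a t) ∧ S.Alive a t ∧ S.out (S.run a t) = b

def PRes (a : X) (β : O) (b : Bool) : Prop :=
  S.Alive a β ∧ S.Res (S.ovr (S.run a β)) b

theorem alive_add {a : X} {s t : O} (h1 : S.Alive a s) (h2 : S.Alive (S.run a s) t) :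
    S.Alive a (s + t) := by
  intro r hr
  rcases lt_or_ge r s with h | h
  · exact h1 r h
  · obtain ⟨r', rfl⟩ := exists_add_of_le h
    rw [run_add]
    exact h2 r' (by simpa using hr)

theorem res_of_alive {a : X} {s : O} {b : Bool} (h1 : S.Alive a s) (h2 : S.Res (S.run a s) b) :
    S.Res a b := by
  obtain ⟨t, h3, h4, h5⟩ := h2
  exact ⟨s + t, by rwa [run_add], S.alive_add h1 h4, by rwa [run_add]⟩

theorem res_halt {a : X} (h : S.halt a) : S.Res a (S.out a) :=
  ⟨0, by simpa using h, fun s hs => absurd hs (by simp), by simp⟩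

theorem alive_one {a : X} (h : ¬ S.halt a) : S.Alive a 1 := by
  intro s hs
  have : s = 0 := by simpa using hs
  subst this
  simpa using h

theorem res_step {a : X} {b : Bool} (h : ¬ S.halt a) (h2 : S.Res (S.step a) b) : S.Res a b :=
  S.res_of_alive (S.alive_one h) (by rwa [run_one])

end Sys

/-- Block simulation of `S1` by `S2`. -/
structure Sim {X1 ι1 X2 ι2 : Type} (S2 : Sys X2 ι2) (S1 : Sys X1 ι1) (R : X2 → X1 → Prop)
    (e : ι1 → ι2) (J : Set ι2) (Len : O → Prop) : Prop where
  dflt : ∃ L, Len L ∧ 0 < L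
  cel : ∀ x2 x1, R x2 x1 → ∀ i, S2.cell x2 (e i) = S1.cell x1 i
  fl : ∀ x2 x1, R x2 x1 → ∀ j ∈ J, S2.cell x2 j = true
  blk : ∀ x2 x1, R x2 x1 → ¬ S1.halt x1 → ∃ L, Len L ∧ 0 < L ∧ R (S2.run x2 L) (S1.step x1) ∧
    S2.Alive x2 L ∧ ∀ i s, s < L → S2.cell (S2.run x2 s) (e i) = true →
      S1.cell x1 i = true ∨ S1.cell (S1.step x1) i = true
  hlt : ∀ x2 x1, R x2 x1 → S1.halt x1 → S2.Res x2 (S1.out x1)
  lim : ∀ v, (∀ j ∈ J, v j = true) → R (S2.lim v) (S1.lim (v ∘ e))

noncomputable def tau (len : O → O → O) (t : O) : O :=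
  Ordinal.limitRecOn (motive := fun _ => O) t 0 (fun s x => x + len s x)
    (fun l _ f => ⨆ s : Set.Iio l, f s.1 s.2)

theorem tau_zero (len : O → O → O) : tau len 0 = 0 := by simp [tau]

theorem tau_succ (len : O → O → O) (t : O) : tau len (t + 1) = tau len t + len t (tau len t) := by
  simp [tau]

theorem tau_limit (len : O → O → O) {l : O} (hl : IsSuccLimit l) :
    tau len l = ⨆ s : Set.Iio l, tau len s.1 := by
  unfold tau
  rw [Ordinal.limitRecOn_limit _ _ _ _ hl]

theorem tau_normal (len : O → O → O) (h : ∀ s x, 0 < len s x) : IsNormal (tau len) := by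
  apply IsNormal.of_succ_lt
  · intro a
    rw [succ_eq_add_one, tau_succ]
    simpa using h _ _
  · intro l hl
    rw [tau_limit len hl]
    constructor
    · rintro _ ⟨s, hs, rfl⟩
      exact Ordinal.le_iSup (fun s : Set.Iio l => tau len s.1) ⟨s, hs⟩
    · intro b hb
      rw [Ordinal.iSup_le_iff]
      intro s
      exact hb ⟨s.1, s.2, rfl⟩

theorem Sim.main {X1 ι1 X2 ι2 : Type} {S2 : Sys X2 ι2} {S1 : Sys X1 ι1} {R : X2 → X1 → Prop}
    {e : ι1 → ι2} {J : Set ι2} {Len : O → Prop} (H : Sim S2 S1 R e J Len) {a2 : X2} {a1 : X1}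
    (h0 : R a2 a1) :
    ∃ len : O → O → O, (∀ s x, Len (len s x) ∧ 0 < len s x) ∧ ∀ t, S1.Alive a1 t →
      R (S2.run a2 (tau len t)) (S1.run a1 t) ∧ S2.Alive a2 (tau len t) := by
  have hch : ∀ (x2 : X2) (x1 : X1), ∃ L, Len L ∧ 0 < L ∧ (R x2 x1 → ¬ S1.halt x1 →
      R (S2.run x2 L) (S1.step x1) ∧
      S2.Alive x2 L ∧ ∀ i s, s < L → S2.cell (S2.run x2 s) (e i) = true →
      S1.cell x1 i = true ∨ S1.cell (S1.step x1) i = true) := by
    intro x2 x1
    by_cases h : R x2 x1 ∧ ¬ S1.halt x1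
    · obtain ⟨L, h1, h2, h3⟩ := H.blk x2 x1 h.1 h.2
      exact ⟨L, h1, h2, fun _ _ => h3⟩
    · obtain ⟨L, h1, h2⟩ := H.dflt
      exact ⟨L, h1, h2, fun h3 h4 => absurd ⟨h3, h4⟩ h⟩
  choose L hL1 hL2 hL3 using hch
  let len : O → O → O := fun s x => L (S2.run a2 x) (S1.run a1 s)
  have hn : IsNormal (tau len) := tau_normal len (fun s x => hL2 _ _)
  refine ⟨len, fun s x => ⟨hL1 _ _, hL2 _ _⟩, ?_⟩
  intro t
  induction t using Ordinal.limitRecOn with
  | zero =>
    intro _
    rw [tau_zero]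
    exact ⟨by simpa using h0, fun s hs => absurd hs (by simp)⟩
  | add_one t ih =>
    intro hA
    obtain ⟨h1, h2⟩ := ih (fun s hs => hA s (hs.trans (lt_add_one t)))
    obtain ⟨h3, h4, -⟩ := hL3 _ _ h1 (hA t (lt_add_one t))
    rw [tau_succ]
    refine ⟨?_, S2.alive_add h2 h4⟩
    rw [S2.run_add, S1.run_succ]
    exact h3
  | limit l hl ih =>
    intro hA
    have ih' := fun s (hs : s < l) => ih s hs (fun r hr => hA r (hr.trans hs))
    have hl2 := hn.map_isSuccLimit hl
    refine ⟨?_, ?_⟩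
    · have hJ : ∀ j ∈ J, S2.cell (S2.run a2 (tau len l)) j = true := by
        intro j hj
        rw [S2.cell_limit _ hl2]
        intro s hs
        obtain ⟨r, hr, hsr⟩ := (hn.lt_iff_exists_lt hl).1 hs
        exact ⟨tau len r, hn.strictMono hr, hsr.le, H.fl _ _ (ih' r hr).1 j hj⟩
      have hv : S2.cell (S2.run a2 (tau len l)) ∘ e = S1.cell (S1.run a1 l) := by
        funext i
        rw [Bool.eq_iff_iff]
        simp only [Function.comp]
        rw [S2.cell_limit _ hl2, S1.cell_limit _ hl]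
        constructor
        · intro hh s hs
          obtain ⟨r, hr, hsr, hc⟩ := hh (tau len s) (hn.strictMono hs)
          obtain ⟨u, hu1, hu2⟩ := hn.exists_map_le_lt_map_succ (x := r)
            (by rw [bot_eq_zero, tau_zero]; exact zero_le)
          have hul : u < l := hn.strictMono.lt_iff_lt.1 (hu1.trans_lt hr)
          have hsu : s ≤ u := by
            have := hn.strictMono.lt_iff_lt.1 (hsr.trans_lt hu2)
            exact lt_succ_iff.1 this
          obtain ⟨d, rfl⟩ := exists_add_of_le hu1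
          rw [succ_eq_add_one, tau_succ] at hu2
          have hd : d < len u (tau len u) := by simpa using hu2
          rw [S2.run_add] at hc
          obtain ⟨-, -, h5⟩ := hL3 _ _ (ih' u hul).1 (hA u hul)
          rcases h5 i d hd hc with h6 | h6
          · exact ⟨u, hul, hsu, h6⟩
          · exact ⟨u + 1, hl.add_one_lt hul, hsu.trans (lt_add_one u).le,
              by rw [S1.run_succ]; exact h6⟩
        · intro hh s hs
          obtain ⟨r, hr, hsr⟩ := (hn.lt_iff_exists_lt hl).1 hs
          obtain ⟨u, hu, hru, hc⟩ := hh r hr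
          refine ⟨tau len u, hn.strictMono hu, hsr.le.trans (hn.monotone hru), ?_⟩
          rw [H.cel _ _ (ih' u hu).1]
          exact hc
      rw [S2.run_limit_eq _ hl2, S1.run_limit_eq _ hl, ← hv]
      exact H.lim _ hJ
    · intro s hs
      obtain ⟨r, hr, hsr⟩ := (hn.lt_iff_exists_lt hl).1 hs
      exact (ih' r hr).2 s hsr

theorem Sim.res {X1 ι1 X2 ι2 : Type} {S2 : Sys X2 ι2} {S1 : Sys X1 ι1} {R : X2 → X1 → Prop}
    {e : ι1 → ι2} {J : Set ι2} {Len : O → Prop} (H : Sim S2 S1 R e J Len) {a2 : X2} {a1 : X1}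
    (h0 : R a2 a1) {b : Bool} (h : S1.Res a1 b) : S2.Res a2 b := by
  obtain ⟨len, -, h2⟩ := H.main h0
  obtain ⟨t, h3, h4, rfl⟩ := h
  obtain ⟨h5, h6⟩ := h2 t h4
  exact S2.res_of_alive h6 (H.hlt _ _ h5 h3)

theorem tau_fin (len : O → O → O) (h : ∀ s x, len s x < ω ∧ 0 < len s x) (t : O) :
    tau len t < t + ω := by
  induction t using Ordinal.limitRecOn with
  | zero => rw [tau_zero]; simp
  | add_one t ih =>
    rw [tau_succ, add_assoc, one_add_omega0]
    obtain ⟨d, hd, hh⟩ := (lt_add_iff_of_isSuccLimit isSuccLimit_omega0).1 ih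
    calc tau len t + len t (tau len t) ≤ (t + d) + len t (tau len t) := by gcongr
      _ = t + (d + len t (tau len t)) := add_assoc _ _ _
      _ < t + ω := by
        gcongr
        exact isPrincipal_add_omega0 hd (h _ _).1
  | limit l hl ih =>
    have hn := tau_normal len (fun s x => (h s x).2)
    have : tau len l ≤ l := by
      rw [hn.le_iff_forall_le hl]
      intro s hs
      refine (ih s hs).le.trans ?_
      rw [add_le_iff_of_isSuccLimit isSuccLimit_omega0]
      intro d hd
      obtain ⟨n, rfl⟩ := lt_omega0.1 hd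
      exact (hl.add_natCast_lt hs n).le
    exact this.trans_lt (by simp)

theorem tau_fin_limit (len : O → O → O) (h : ∀ s x, len s x < ω ∧ 0 < len s x) {l : O}
    (hl : IsSuccLimit l) : tau len l = l := by
  have hn := tau_normal len (fun s x => (h s x).2)
  apply le_antisymm _ hn.strictMono.le_apply
  rw [hn.le_iff_forall_le hl]
  intro s hs
  refine (tau_fin len h s).le.trans ?_
  rw [add_le_iff_of_isSuccLimit isSuccLimit_omega0]
  intro d hd
  obtain ⟨n, rfl⟩ := lt_omega0.1 hd
  exact (hl.add_natCast_lt hs n).le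

theorem tau_const (len : O → O → O) (L : O) (h : ∀ s x, len s x = L ∧ 0 < len s x) (t : O) :
    tau len t = L * t := by
  induction t using Ordinal.limitRecOn with
  | zero => simp [tau_zero]
  | add_one t ih => rw [tau_succ, (h _ _).1, ih, mul_add_one]
  | limit l hl ih =>
    have hn := tau_normal len (fun s x => (h s x).2)
    apply eq_of_forall_lt_iff
    intro c
    rw [hn.lt_iff_exists_lt hl, lt_mul_iff_of_isSuccLimit hl]
    constructor <;> rintro ⟨s, hs, hc⟩ <;> exact ⟨s, hs, by simpa [ih s hs] using hc⟩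

/-- Transfer of parametrised results along a finite-step simulation. -/
theorem Sim.pres {X1 ι1 X2 ι2 : Type} {S2 : Sys X2 ι2} {S1 : Sys X1 ι1} {R : X2 → X1 → Prop}
    {e : ι1 → ι2} (H : Sim S2 S1 R e ∅ (· < ω)) {a2 : X2} {a1 : X1}
    (h0 : R a2 a1) (hov : ∀ v, R (S2.ovr (S2.lim v)) (S1.ovr (S1.lim (v ∘ e))))
    {β : O} (hβ : IsSuccLimit β) {b : Bool} (h : S1.PRes a1 β b) : S2.PRes a2 β b := by
  obtain ⟨len, h1, h2⟩ := H.main h0
  obtain ⟨h3, h4⟩ := h2 β h.1
  rw [tau_fin_limit len h1 hβ] at h3 h4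
  refine ⟨h4, H.res (a1 := S1.ovr (S1.run a1 β)) ?_ h.2⟩
  have hv : S2.cell (S2.run a2 β) ∘ e = S1.cell (S1.run a1 β) := by
    funext i
    exact H.cel _ _ h3 i
  rw [S2.run_limit_eq _ hβ, S1.run_limit_eq _ hβ, ← hv]
  exact hov _

end Pool.Agent.MP_bf5815_lc
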